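import Pool.Agent.Y830.PR.Int
import Pool.Agent.Y830.SQ.Mer
import Pool.Agent.Y830.SQ.Ind

/-!
The choice of the parameters in Brun's sieve.
-/

set_option autoImplicit false

namespace Pool.Agent.Y830.PR

open Finset Filter Topology
open Pool.Agent.Y829 Pool.Agent.Y829.RP Pool.Agent.Y830.SQ

theorem log_pow_le (n : ℕ) (r C : ℝ) (hr : 0 < r) (hC : 0 < C) :
    ∃ X0 : ℕ, ∀ X : ℕ, X0 ≤ X → C * Real.log X ^ n ≤ (X : ℝ) ^ r := by
  have h1 := isLittleO_log_rpow_rpow_atTop (n : ℝ) hr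
  have h2 := (h1.bound (by positivity : 0 < 1 / C)).and (eventually_ge_atTop (1 : ℝ))
  have h3 := tendsto_natCast_atTop_atTop (R := ℝ) |>.eventually h2
  obtain ⟨X0, h4⟩ := h3.exists_forall_of_atTop
  refine ⟨X0, fun X hX => ?_⟩
  obtain ⟨h5, h6⟩ := h4 X hX
  have h7 : 0 ≤ Real.log (X : ℝ) := Real.log_nonneg h6
  rw [Real.rpow_natCast, Real.norm_of_nonneg (by positivity),
    Real.norm_of_nonneg (by positivity)] at h5
  have h8 := mul_le_mul_of_nonneg_left h5 hC.le
  have h9 : C * (1 / C * (X : ℝ) ^ r) = (X : ℝ) ^ r := by field_simp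
  rwa [h9] at h8

theorem small_par (m : ℕ) : ∃ B X0 : ℕ, ∀ X : ℕ, X0 ≤ X → ∀ (y : ℕ) (S : Finset ℕ), 3 ≤ y →
    (∀ p ∈ S, p.Prime) → (S.filter (fun p => y < p)).card ≤ y →
    B * Real.log y * Real.log (Real.log X) ≤ Real.log X →
    ∃ t : ℕ, (∑ p ∈ S, 1 / (p : ℝ)) ^ t / (t.factorial : ℕ) ≤ 1 / Real.log X ^ m ∧
      ((t : ℝ) + 1) * (1 + (S.card : ℝ)) ^ t ≤ (X : ℝ) ^ (1 / 4 : ℝ) := by
  classical
  obtain ⟨CM, hCM0, hCM⟩ := mer_local
  set A : ℝ := 2 * Real.exp (m + 1) with hA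
  have hA1 : 1 ≤ A := by
    have : 1 ≤ Real.exp ((m : ℝ) + 1) := Real.one_le_exp (by positivity)
    linarith
  have hloglog : Tendsto (fun X : ℕ => Real.log (Real.log (X : ℝ))) atTop atTop :=
    Real.tendsto_log_atTop.comp log_tend
  obtain ⟨X1, hX1⟩ := (hloglog.eventually_ge_atTop (CM + 2)).exists_forall_of_atTop
  obtain ⟨X2, hX2⟩ := (log_tend.eventually_ge_atTop 1).exists_forall_of_atTop
  refine ⟨⌈24 * A⌉₊ + 1, max (max X1 X2) 1, fun X hX y S hy hS hSc hB => ?_⟩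
  have hlam0 := hX1 X ((le_max_left _ _).trans ((le_max_left _ _).trans hX))
  have hL1 := hX2 X ((le_max_right _ _).trans ((le_max_left _ _).trans hX))
  have hX0 : 0 < X := by
    have := (le_max_right _ _).trans hX
    omega
  have hXr : (0 : ℝ) < X := by exact_mod_cast hX0
  set lam : ℝ := Real.log (Real.log X) with hlam
  have hly := one_le_log hy
  set Bn : ℕ := ⌈24 * A⌉₊ + 1 with hBn
  have hBA : 24 * A ≤ Bn := by
    have := Nat.le_ceil (24 * A)
    rw [hBn]
    push_cast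
    linarith
  have hlam1 : 1 ≤ lam := by linarith
  have hlyX : Real.log y ≤ Real.log X := by
    have h1 : 1 * Real.log y * 1 ≤ Bn * Real.log y * lam :=
      mul_le_mul (mul_le_mul_of_nonneg_right (by linarith) (by linarith)) hlam1 zero_le_one
        (by positivity)
    linarith
  have hy0 : (0 : ℝ) < y := by exact_mod_cast (by omega : 0 < y)
  -- the sum of the reciprocals
  set ell : ℝ := ∑ p ∈ S, 1 / (p : ℝ) with hell
  have hell0 : 0 ≤ ell := sum_nonneg fun _ _ => by positivity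
  have hsplit : ell = ∑ p ∈ S.filter (fun p => y < p), 1 / (p : ℝ) +
      ∑ p ∈ S.filter (fun p => ¬ y < p), 1 / (p : ℝ) := (sum_filter_add_sum_filter_not S _ _).symm
  have hE : ∑ p ∈ S.filter (fun p => y < p), 1 / (p : ℝ) ≤ 1 := by
    have h1 : ∑ p ∈ S.filter (fun p => y < p), 1 / (p : ℝ) ≤
        ∑ _p ∈ S.filter (fun p => y < p), 1 / (y : ℝ) := by
      refine sum_le_sum fun p hp => one_div_le_one_div_of_le hy0 ?_
      exact_mod_cast (mem_filter.1 hp).2.le
    rw [sum_const, nsmul_eq_mul] at h1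
    have h2 : ((S.filter (fun p => y < p)).card : ℝ) ≤ y := by exact_mod_cast hSc
    have h3 : ((S.filter (fun p => y < p)).card : ℝ) * (1 / y) ≤ y * (1 / y) :=
      mul_le_mul_of_nonneg_right h2 (by positivity)
    have h4 : (y : ℝ) * (1 / y) = 1 := by field_simp
    linarith
  have hSm : ∑ p ∈ S.filter (fun p => ¬ y < p), 1 / (p : ℝ) ≤ 1 / 2 + lam + CM := by
    have h1 : S.filter (fun p => ¬ y < p) ⊆ insert 2 ((S.filter (fun p => ¬ y < p)).erase 2) := by
      intro p hp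
      by_cases h2 : p = 2
      · exact mem_insert.2 (Or.inl h2)
      · exact mem_insert_of_mem (mem_erase.2 ⟨h2, hp⟩)
    have h2 := sum_le_sum_of_subset_of_nonneg h1 fun (p : ℕ) _ _ =>
      (by positivity : (0 : ℝ) ≤ 1 / (p : ℝ))
    rw [sum_insert (by simp)] at h2
    have h3 := hCM 3 y le_rfl hy ((S.filter (fun p => ¬ y < p)).erase 2) fun q hq => by
      rw [mem_erase, mem_filter] at hq
      have hq1 := hS q hq.2.1
      refine ⟨hq1, ?_, by omega⟩
      have := hq1.two_le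
      omega
    have h4 : Real.log (Real.log y / Real.log (3 : ℕ)) ≤ lam := by
      have h5 : 1 ≤ Real.log (3 : ℕ) := one_le_log le_rfl
      refine Real.log_le_log (by positivity) ?_
      exact (div_le_self (by linarith) h5).trans hlyX
    have h5 : (1 : ℝ) / ((2 : ℕ) : ℝ) = 1 / 2 := by norm_num
    rw [h5] at h2
    linarith
  have hell2 : ell ≤ 2 * lam := by linarith
  -- the choice of `t`
  set t : ℕ := ⌈A * lam⌉₊ with ht
  have hAl : 0 < A * lam := by positivity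
  have ht1 : A * lam ≤ t := Nat.le_ceil _
  have ht2 : (t : ℝ) ≤ 2 * (A * lam) := by
    have h1 := (Nat.ceil_lt_add_one hAl.le).le
    have h2 : 1 ≤ A * lam := by nlinarith
    linarith
  refine ⟨t, ?_, ?_⟩
  · set e1 : ℝ := Real.exp (m + 1) with he1
    have he10 : 0 < e1 := Real.exp_pos _
    have h1 := Real.pow_div_factorial_le_exp (e1 * ell) (by positivity) t
    have h2 : (e1 * ell) ^ t / (t.factorial : ℕ) = e1 ^ t * (ell ^ t / (t.factorial : ℕ)) := by
      rw [mul_pow]; ring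
    rw [h2] at h1
    have h3 : Real.exp (e1 * ell) ≤ Real.exp t := by
      refine Real.exp_le_exp.2 ?_
      have : e1 * ell ≤ e1 * (2 * lam) := mul_le_mul_of_nonneg_left hell2 he10.le
      have e : e1 * (2 * lam) = A * lam := by rw [hA]; ring
      linarith
    have h4 : e1 ^ t = Real.exp ((m : ℝ) * t) * Real.exp t := by
      rw [he1, ← Real.exp_nat_mul, ← Real.exp_add]
      congr 1
      ring
    rw [h4] at h1
    have h5 : Real.exp ((m : ℝ) * t) * (ell ^ t / (t.factorial : ℕ)) ≤ 1 := by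
      have h6 : Real.exp t * (Real.exp ((m : ℝ) * t) * (ell ^ t / (t.factorial : ℕ))) ≤
          Real.exp t * 1 := by
        have : Real.exp ((m : ℝ) * t) * Real.exp t * (ell ^ t / (t.factorial : ℕ)) ≤
          Real.exp t := h1.trans h3
        linarith
      exact le_of_mul_le_mul_left h6 (Real.exp_pos _)
    have h6 : Real.log X ^ m ≤ Real.exp ((m : ℝ) * t) := by
      have h7 : Real.log X = Real.exp lam := by
        rw [hlam, Real.exp_log (by linarith)]
      rw [h7, ← Real.exp_nat_mul]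
      refine Real.exp_le_exp.2 (mul_le_mul_of_nonneg_left ?_ (Nat.cast_nonneg m))
      nlinarith
    rw [le_div_iff₀ (by positivity)]
    have h7 : 0 ≤ ell ^ t / ((t.factorial : ℕ) : ℝ) := by positivity
    have h8 := mul_le_mul_of_nonneg_left h6 h7
    linarith
  · have hc : 1 + (S.card : ℝ) ≤ (y : ℝ) ^ 2 := by
      have h1 : S.card = (S.filter (fun p => y < p)).card + (S.filter (fun p => ¬ y < p)).card :=
        (card_filter_add_card_filter_not _).symm
      have h2 : (S.filter (fun p => ¬ y < p)).card ≤ y := by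
        calc (S.filter (fun p => ¬ y < p)).card ≤ (Icc 1 y).card := by
              refine card_le_card fun p hp => ?_
              rw [mem_filter] at hp
              exact mem_Icc.2 ⟨(hS p hp.1).one_lt.le, by omega⟩
          _ = y := by rw [Nat.card_Icc]; omega
      have h3 : S.card ≤ 2 * y := by omega
      have h4 : 1 + S.card ≤ y ^ 2 := by nlinarith
      exact_mod_cast h4
    have ht3 : (t : ℝ) + 1 ≤ (y : ℝ) ^ t := by
      have h1 : t + 1 ≤ 2 ^ t := Nat.lt_two_pow_self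
      have h2 : 2 ^ t ≤ y ^ t := Nat.pow_le_pow_left (by omega) t
      exact_mod_cast h1.trans h2
    have h1 : ((t : ℝ) + 1) * (1 + (S.card : ℝ)) ^ t ≤ (y : ℝ) ^ t * ((y : ℝ) ^ 2) ^ t :=
      mul_le_mul ht3 (pow_le_pow_left₀ (by positivity) hc t) (by positivity) (by positivity)
    refine h1.trans ?_
    have h2 : (y : ℝ) ^ t * ((y : ℝ) ^ 2) ^ t = Real.exp (3 * t * Real.log y) := by
      rw [← pow_mul, ← pow_add]
      have h3 : (y : ℝ) = Real.exp (Real.log y) := (Real.exp_log hy0).symm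
      rw [h3, ← Real.exp_nat_mul, Real.exp_log hy0]
      congr 1
      push_cast
      ring
    rw [h2, Real.rpow_def_of_pos hXr]
    refine Real.exp_le_exp.2 ?_
    have h3 : 3 * t * Real.log y ≤ 6 * (A * lam) * Real.log y := by
      have := mul_le_mul_of_nonneg_right ht2 (by linarith : 0 ≤ Real.log y)
      linarith
    have h4 : 24 * A * (lam * Real.log y) ≤ Bn * (lam * Real.log y) :=
      mul_le_mul_of_nonneg_right hBA (by positivity)
    linarith

/-- intervals and periods -/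
theorem intv (K K' : ℕ) : ∃ B X0 : ℕ, ∀ X : ℕ, X0 ≤ X → ∀ (Q y N : ℕ) (S : Finset ℕ)
    (c : ℕ → ℕ → ℝ), 3 ≤ y → (∀ p ∈ S, p.Prime) → (S.filter (fun p => y < p)).card ≤ y →
    B * Real.log y * Real.log (Real.log X) ≤ Real.log X → (Q : ℝ) ^ 2 ≤ X →
    ∑ d ∈ Icc 1 Q, ss c d ^ 2 / d ≤ Real.log X ^ K → X ≤ N → ∀ h : ℕ,
    |∑ n ∈ Ioc X (2 * X), wt Q c n * (if ∀ p ∈ S, ¬ p ∣ n + h then 1 else 0) -
      X / N * ∑ n ∈ range N, wt Q c n * (if ∀ p ∈ S, ¬ p ∣ n + h then 1 else 0)| ≤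
      X / Real.log X ^ K' := by
  classical
  obtain ⟨B, X1, hpar⟩ := small_par (K + K' + 3)
  obtain ⟨X2, hX2⟩ := (log_tend.eventually_ge_atTop 3).exists_forall_of_atTop
  obtain ⟨X3, hX3⟩ := log_pow_le (K + K') (1 / 4) 4 (by norm_num) (by norm_num)
  refine ⟨B, max (max X1 X2) (max X3 1), fun X hX Q y N S c hy hS hSc hB hQX hc hXN h => ?_⟩
  obtain ⟨t, ht1, ht2⟩ := hpar X ((le_max_left _ _).trans ((le_max_left _ _).trans hX)) y S hy hS
    hSc hB
  have hL3 := hX2 X ((le_max_right _ _).trans ((le_max_left _ _).trans hX))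
  have hlp := hX3 X ((le_max_left _ _).trans ((le_max_right _ _).trans hX))
  have hX0 : 0 < X := by
    have := (le_max_right _ _).trans ((le_max_right _ _).trans hX)
    omega
  have hXr : (0 : ℝ) < X := by exact_mod_cast hX0
  have hXr1 : (1 : ℝ) ≤ X := by exact_mod_cast hX0
  have hNr : (0 : ℝ) < N := by exact_mod_cast (by omega : 0 < N)
  set L := Real.log (X : ℝ) with hLd
  set τ : ℝ := 1 / L ^ (K + K' + 3) with hτ
  set M : ℝ := ((t : ℝ) + 1) * (1 + (S.card : ℝ)) ^ t with hM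
  have hM0 : 0 ≤ M := by positivity
  set G : ℝ := ∑ d ∈ Icc 1 Q, ∑ a ∈ range d, c d a * gS S d a h with hG
  have h1 := sumS Q c (X + 1) X h S hS t τ ht1
  have h2 := sumS Q c 0 N h S hS t τ ht1
  have e1 : Ico (X + 1) (X + 1 + X) = Ioc X (2 * X) := by
    ext n
    simp only [mem_Ico, mem_Ioc]
    omega
  have e2 : Ico 0 (0 + N) = range N := by
    ext n
    simp
  rw [e1, ← hG, ← hM] at h1
  rw [e2, ← hG, ← hM] at h2
  set S1 : ℝ := ∑ n ∈ Ioc X (2 * X), wt Q c n * (if ∀ p ∈ S, ¬ p ∣ n + h then 1 else 0) with hS1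
  set S2 : ℝ := ∑ n ∈ range N, wt Q c n * (if ∀ p ∈ S, ¬ p ∣ n + h then 1 else 0) with hS2
  have hss := sum_ss (K := K) (L := L) (by linarith) hc
  have hQr : (Q : ℝ) ≤ (X : ℝ) ^ (1 / 2 : ℝ) := by
    rw [← Real.sqrt_eq_rpow]
    exact Real.le_sqrt_of_sq_le hQX
  have hlQ : Real.log Q ≤ L := by
    rcases Nat.eq_zero_or_pos Q with h3 | h3
    · rw [h3]
      simp only [Nat.cast_zero, Real.log_zero]
      linarith
    · refine Real.log_le_log (by exact_mod_cast h3) ?_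
      have h4 : (1 : ℝ) ≤ Q := by exact_mod_cast h3
      nlinarith
  have hssd := sum_ssd (K := K) (L := L) (by linarith) hlQ hc
  have hss0 : ∀ d, 0 ≤ ss c d := ss_nonneg c
  -- the two errors
  have hA1 : ∑ d ∈ Icc 1 Q, ss c d * (2 * ((X : ℝ) / d) * τ + M) =
      2 * X * τ * ∑ d ∈ Icc 1 Q, ss c d / d + M * ∑ d ∈ Icc 1 Q, ss c d := by
    rw [mul_sum, mul_sum, ← sum_add_distrib]
    exact sum_congr rfl fun d _ => by ring
  have hA2 : ∑ d ∈ Icc 1 Q, ss c d * (2 * ((N : ℝ) / d) * τ + M) =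
      2 * N * τ * ∑ d ∈ Icc 1 Q, ss c d / d + M * ∑ d ∈ Icc 1 Q, ss c d := by
    rw [mul_sum, mul_sum, ← sum_add_distrib]
    exact sum_congr rfl fun d _ => by ring
  rw [hA1] at h1
  rw [hA2] at h2
  set s1 : ℝ := ∑ d ∈ Icc 1 Q, ss c d / d with hs1
  set s2 : ℝ := ∑ d ∈ Icc 1 Q, ss c d with hs2
  have hs20 : 0 ≤ s2 := sum_nonneg fun d _ => hss0 d
  have h3 : |(X : ℝ) / N * S2 - X * G| ≤ 2 * X * τ * s1 + M * s2 := by
    have e : (X : ℝ) / N * S2 - X * G = X / N * (S2 - N * G) := by field_simp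
    rw [e, abs_mul, abs_of_nonneg (by positivity)]
    have h4 := mul_le_mul_of_nonneg_left h2 (by positivity : 0 ≤ (X : ℝ) / N)
    refine h4.trans ?_
    have h5 : (X : ℝ) / N ≤ 1 := by
      rw [div_le_one hNr]
      exact_mod_cast hXN
    have h6 : (X : ℝ) / N * (M * s2) ≤ 1 * (M * s2) := mul_le_mul_of_nonneg_right h5 (by positivity)
    have e3 : (X : ℝ) / N * (2 * N * τ * s1 + M * s2) = 2 * X * τ * s1 + X / N * (M * s2) := by
      field_simp
    rw [e3]
    linarith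
  have h4 : |S1 - (X : ℝ) / N * S2| ≤ 2 * (2 * X * τ * s1 + M * s2) := by
    have e : S1 - (X : ℝ) / N * S2 = (S1 - X * G) - (X / N * S2 - X * G) := by ring
    rw [e]
    refine (abs_sub _ _).trans ?_
    linarith
  refine h4.trans ?_
  have hL0 : 0 < L := by linarith
  have h5 : 4 * X * τ * s1 ≤ 1 / 2 * (X / L ^ K') := by
    have h6 : 4 * X * τ * s1 ≤ 4 * X * τ * L ^ (K + 1) :=
      mul_le_mul_of_nonneg_left hssd (by positivity)
    have h7 : 4 * X * τ * L ^ (K + 1) = 4 / L ^ 2 * (X / L ^ K') := by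
      rw [hτ, show K + K' + 3 = (K + 1) + K' + 2 by ring, pow_add, pow_add]
      field_simp
    rw [h7] at h6
    refine h6.trans (mul_le_mul_of_nonneg_right ?_ (by positivity))
    rw [div_le_iff₀ (by positivity)]
    nlinarith
  have h6 : 2 * (M * s2) ≤ 1 / 2 * (X / L ^ K') := by
    have h7 : M * s2 ≤ (X : ℝ) ^ (1 / 4 : ℝ) * ((X : ℝ) ^ (1 / 2 : ℝ) * L ^ K) := by
      refine mul_le_mul ht2 (hss.trans ?_) hs20 (by positivity)
      exact mul_le_mul_of_nonneg_right hQr (by positivity)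
    have h8 : 4 * (L ^ K * L ^ K') ≤ (X : ℝ) ^ (1 / 4 : ℝ) := by
      rw [← pow_add]
      exact hlp
    rw [mul_div_assoc', le_div_iff₀ (by positivity)]
    have h9 : (X : ℝ) ^ (1 / 4 : ℝ) * ((X : ℝ) ^ (1 / 2 : ℝ)) * (X : ℝ) ^ (1 / 4 : ℝ) = X := by
      rw [← Real.rpow_add hXr, ← Real.rpow_add hXr]
      norm_num
    have h10 : 2 * (M * s2) * L ^ K' ≤
        2 * ((X : ℝ) ^ (1 / 4 : ℝ) * ((X : ℝ) ^ (1 / 2 : ℝ) * L ^ K)) * L ^ K' := by
      refine mul_le_mul_of_nonneg_right ?_ (by positivity)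
      linarith
    have h11 : (X : ℝ) ^ (1 / 4 : ℝ) * ((X : ℝ) ^ (1 / 2 : ℝ)) * (4 * (L ^ K * L ^ K')) ≤
        (X : ℝ) ^ (1 / 4 : ℝ) * ((X : ℝ) ^ (1 / 2 : ℝ)) * (X : ℝ) ^ (1 / 4 : ℝ) :=
      mul_le_mul_of_nonneg_left h8 (by positivity)
    rw [h9] at h11
    nlinarith
  linarith

end Pool.Agent.Y830.PR
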