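import Pool.Agent.Y830.PR.Cls
import Pool.Agent.Y830.PR.Int2

/-!
Primes in `n + H`, weighted by sums of squares: the final theorem.
-/

set_option autoImplicit false

namespace Pool.Agent.Y830.PR

open Finset Filter Topology
open Pool.Agent.Y829 Pool.Agent.Y829.RP Pool.Agent.Y830.SQ Pool.Agent.Y835.SB
open H343E (pi1)

theorem wt_isWeight (W N Q : ℕ) (g : ℕ → ℕ → ℝ) (hdN : ∀ d ∈ Icc 1 Q, W * d ∣ N) :
    IsWeight W N Q (wt Q g) := by
  refine ⟨Icc 1 Q, fun d => d, fun d n => g d (n % d), fun d hd => ?_, fun n => rfl⟩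
  have hd1 := mem_Icc.1 hd
  refine ⟨Nat.lt_of_lt_of_le Nat.zero_lt_one hd1.1, by exact_mod_cast hd1.2, hdN d hd,
    fun n => ?_⟩
  show g d ((n + W * d) % d) = g d (n % d)
  rw [Nat.add_mul_mod_self_right]

theorem V_eq_DD (P : Finset ℕ) : V P = DD 1 P := by
  unfold V DD
  rw [Nat.cast_one]

/-- the number of `h` in `H` with `n + h` prime -/
noncomputable def prs (H : Finset ℕ) (n : ℕ) : ℝ := ((H.filter (fun h => (n + h).Prime)).card : ℝ)

theorem prs_eq (H : Finset ℕ) (n : ℕ) :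
    prs H n = ∑ h ∈ H, (if (n + h).Prime then (1 : ℝ) else 0) := by
  unfold prs
  rw [sum_boole]

theorem SV_card (H S : Finset ℕ) (n : ℕ) :
    ((SV H S n).card : ℝ) = ∑ h ∈ H, (if ∀ p ∈ S, ¬ p ∣ n + h then (1 : ℝ) else 0) := by
  unfold SV
  rw [sum_boole]

theorem main (ε : ℝ) (hε : 0 < ε) : ∃ C : ℝ, 0 < C ∧ ∀ K : ℕ, ∃ B X0 : ℕ,
    ∀ X : ℕ, X0 ≤ X → ∀ (Q y : ℕ) (S H : Finset ℕ) (c : ℕ → ℕ → ℝ) (J : ℕ) (g : ℕ → ℕ → ℕ → ℝ),
      3 ≤ y → y ≤ Q → (Q : ℝ) ^ 2 * Real.log X ^ B ≤ X →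
      B * Real.log y * Real.log (Real.log X) ≤ Real.log X →
      (∀ p ∈ S, p.Prime ∧ p ≤ Q) → (∀ p : ℕ, p.Prime → p ≤ y → p ∈ S) →
      (S.filter (fun p => y < p)).card ≤ y →
      (∀ p : ℕ, p.Prime → p ≤ Q → p ∉ S → Set.InjOn (fun h => h % p) (H : Set ℕ)) →
      (∀ h ∈ H, h ≤ X) → (H.card : ℝ) ≤ Real.log X ^ K →
      (∀ n, wt Q c n = ∑ j ∈ range J, wt Q (g j) n ^ 2) →
      ∑ d ∈ Icc 1 Q, ss c d ^ 2 / d ≤ Real.log X ^ K →
      X / Real.log X ^ K ≤ ∑ n ∈ Ioc X (2 * X), wt Q c n →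
      |∑ n ∈ Ioc X (2 * X), wt Q c n * prs H n -
        1 / (Real.log X * V S) * ∑ n ∈ Ioc X (2 * X), wt Q c n * (SV H S n).card| ≤
      ε * (1 / (Real.log X * V S) * ∑ n ∈ Ioc X (2 * X), wt Q c n * (SV H S n).card) +
        C * er H.card Q y * ∑ n ∈ Ioc X (2 * X), wt Q c n := by
  classical
  set δ : ℝ := min ε 1 / 4 with hδ
  have hδ0 : 0 < δ := by
    have : 0 < min ε 1 := lt_min hε one_pos
    positivity
  have hδ1 : δ ≤ 1 / 4 := by
    have : min ε 1 ≤ 1 := min_le_right _ _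
    linarith
  have hδε : 4 * δ ≤ ε := by
    have : min ε 1 ≤ ε := min_le_left _ _
    linarith
  obtain ⟨C1, hC1, A1⟩ := clsum δ hδ0
  obtain ⟨cm, hcm, hmert⟩ := mert
  refine ⟨4 * C1 / cm + 2 * (3 + 2 / cm), by positivity, fun K => ?_⟩
  obtain ⟨B1, X1, hsh⟩ := shift_pr K (2 * K + 1)
  obtain ⟨B2, X2, hiv⟩ := intv K (2 * K + 1)
  obtain ⟨X3, hdy⟩ := dyadic δ hδ0 (by linarith)
  obtain ⟨X4, hX4⟩ := (log_tend.eventually_ge_atTop 1).exists_forall_of_atTop
  obtain ⟨X5, hX5⟩ := ((Real.tendsto_log_atTop.comp log_tend).eventually_ge_atTop 0).exists_forall_of_atTop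
  refine ⟨B1 + B2 + 2 * K + 1, max (max (max X1 X2) (max X3 X4)) (max X5 3), ?_⟩
  intro X hX Q y S H c J g hy hyQ hQX hB hS hyS hSc hH hHX hHK hsos hc hmass
  have hXa := (le_max_left _ _).trans hX
  have hXb := (le_max_right _ _).trans hX
  have hX1 : X1 ≤ X := (le_max_left _ _).trans ((le_max_left _ _).trans hXa)
  have hX2 : X2 ≤ X := (le_max_right _ _).trans ((le_max_left _ _).trans hXa)
  have hX3 : X3 ≤ X := (le_max_left _ _).trans ((le_max_right _ _).trans hXa)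
  have hX4' : X4 ≤ X := (le_max_right _ _).trans ((le_max_right _ _).trans hXa)
  have hX5' : X5 ≤ X := (le_max_left _ _).trans hXb
  have hX3' : 3 ≤ X := (le_max_right _ _).trans hXb
  have hL1 := hX4 X hX4'
  have hLL := hX5 X hX5'
  simp only [Function.comp] at hLL
  set L := Real.log (X : ℝ) with hLd
  have hL0 : 0 < L := by linarith
  have hXr : (0 : ℝ) < X := by exact_mod_cast (by omega : 0 < X)
  have hQ1 : 1 ≤ Q := by omega
  have hQr : (1 : ℝ) ≤ Q := by exact_mod_cast hQ1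
  have hly := one_le_log hy
  have hlQ1 := one_le_log (hy.trans hyQ)
  set w : ℕ → ℝ := wt Q c with hw
  have hw0 : ∀ n, 0 ≤ w n := fun n => by rw [hsos n]; exact sum_nonneg fun _ _ => sq_nonneg _
  -- exponents
  have hQB : ∀ b : ℕ, b ≤ B1 + B2 + 2 * K + 1 → (Q : ℝ) ^ 2 * L ^ b ≤ X := fun b hb =>
    le_trans (mul_le_mul_of_nonneg_left (pow_le_pow_right₀ hL1 hb) (by positivity)) hQX
  have hQX2 : (Q : ℝ) ^ 2 ≤ X := by
    have := hQB 0 (by omega)
    rwa [pow_zero, mul_one] at this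
  have hlQL : Real.log Q ≤ L := by
    refine Real.log_le_log (by linarith) ?_
    nlinarith
  have hBy : B2 * Real.log y * Real.log L ≤ L := by
    refine le_trans ?_ hB
    refine mul_le_mul_of_nonneg_right (mul_le_mul_of_nonneg_right ?_ (by linarith)) hLL
    exact_mod_cast (by omega : B2 ≤ B1 + B2 + 2 * K + 1)
  -- the period
  set W := ∏ p ∈ S, p with hW
  have hW0 : 0 < W := prod_pos fun p hp => (hS p hp).1.pos
  set N := W * Q.factorial * X with hN
  have hN0 : 0 < N := Nat.mul_pos (Nat.mul_pos hW0 (Nat.factorial_pos _)) (by omega)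
  have hNr : (0 : ℝ) < N := by exact_mod_cast hN0
  have hXN : X ≤ N := Nat.le_mul_of_pos_left X (Nat.mul_pos hW0 (Nat.factorial_pos _))
  have hdN : ∀ d ∈ Icc 1 Q, W * d ∣ N := by
    intro d hd
    rw [mem_Icc] at hd
    have h1 : d ∣ Q.factorial := Nat.dvd_factorial (by omega) hd.2
    exact (Nat.mul_dvd_mul_left W h1).trans (Dvd.intro _ rfl)
  have hdN' : ∀ d ∈ Icc 1 Q, d ∣ N := fun d hd => (Dvd.intro_left W rfl).trans (hdN d hd)
  set D := DD 1 (PQ Q \ S) with hD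
  set vS := V S with hvS
  set v := V (PQ Q) with hv
  have hPQS : PQ Q \ S ∪ S = PQ Q := by
    rw [sdiff_union_self_eq_union, union_eq_left]
    intro p hp
    exact mem_PQ.2 (hS p hp)
  have hvv : v = vS * D := by
    rw [hv, hvS, hD, ← V_eq_DD]
    unfold V
    rw [← hPQS, prod_union disjoint_sdiff_self_left, hPQS, mul_comm]
  have hPQp : ∀ p ∈ PQ Q, p.Prime ∧ p ≤ Q := fun p hp => mem_PQ.1 hp
  have hv1 : cm / Real.log Q ≤ v := hmert Q (by omega) (PQ Q) hPQp
  have hv0 : 0 < v := lt_of_lt_of_le (by positivity) hv1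
  have hVle : ∀ P : Finset ℕ, (∀ p ∈ P, p.Prime) → 0 < V P ∧ V P ≤ 1 := by
    intro P hP
    constructor
    · exact prod_pos fun p hp => fac_pos (hP p hp)
    · refine prod_le_one (fun p hp => (fac_pos (hP p hp)).le) fun p _ => ?_
      have : (0 : ℝ) ≤ 1 / (p : ℝ) := by positivity
      linarith
  have hvS0 : 0 < vS := (hVle S fun p hp => (hS p hp).1).1
  have hvS1 : vS ≠ 0 := hvS0.ne'
  have hD01 : 0 < D ∧ D ≤ 1 := by
    rw [hD, ← V_eq_DD]
    exact hVle _ fun p hp => (hPQp p (mem_sdiff.1 hp).1).1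
  have hv_le : v ≤ vS := by
    rw [hvv]
    exact mul_le_of_le_one_right hvS0.le hD01.2
  have hLv : 1 / (L * v) ≤ 1 / cm := by
    refine one_div_le_one_div_of_le hcm ?_
    have h1 : cm ≤ Real.log Q * v := by
      rw [div_le_iff₀ (by linarith)] at hv1
      linarith
    exact h1.trans (mul_le_mul_of_nonneg_right hlQL hv0.le)
  set ch : ℝ := 1 / (L * vS) with hch
  have hch0 : 0 < ch := by positivity
  have hch1 : ch ≤ 1 / cm := by
    refine le_trans ?_ hLv
    exact one_div_le_one_div_of_le (by positivity) (mul_le_mul_of_nonneg_left hv_le hL0.le)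
  -- the sums
  set A : ℝ := ∑ n ∈ Ioc X (2 * X), w n with hA
  set T : ℝ := ∑ n ∈ Ioc X (2 * X), w n * prs H n with hT
  set R : ℝ := ∑ n ∈ Ioc X (2 * X), w n * (SV H S n).card with hR
  set RN : ℝ := ∑ n ∈ range N, w n * (SV H S n).card with hRN
  set Gs : ℝ := ∑ h ∈ H, GG Q c h with hGs
  set e : ℝ := X / L ^ (K + 1) with he
  set er0 : ℝ := er H.card Q y with her0
  have her : Real.log 2 ≤ er0 := er_pos (Nat.cast_nonneg _)
  have hl2 := Real.log_two_gt_d9
  have he0 : 0 < e := by positivity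
  have heA : e ≤ A := by
    refine le_trans ?_ hmass
    rw [he]
    exact div_le_div_of_nonneg_left hXr.le (by positivity) (pow_le_pow_right₀ hL1 (by omega))
  have hA0 : 0 < A := lt_of_lt_of_le he0 heA
  have hR0 : 0 ≤ R := sum_nonneg fun n _ => mul_nonneg (hw0 n) (Nat.cast_nonneg _)
  have hRN0 : 0 ≤ RN := sum_nonneg fun n _ => mul_nonneg (hw0 n) (Nat.cast_nonneg _)
  have hGG : ∀ h, 0 ≤ GG Q c h := fun h => GG_nonneg Q h c hw0
  have hGs0 : 0 ≤ Gs := sum_nonneg fun h _ => hGG h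
  have hcard : (H.card : ℝ) * (X / L ^ (2 * K + 1)) ≤ e := by
    have h1 : (H.card : ℝ) * (X / L ^ (2 * K + 1)) ≤ L ^ K * (X / L ^ (2 * K + 1)) :=
      mul_le_mul_of_nonneg_right hHK (by positivity)
    refine h1.trans (le_of_eq ?_)
    rw [he, show 2 * K + 1 = K + (K + 1) by ring, pow_add]
    field_simp
  -- (a) primes
  have ha : |T - X / L * Gs| ≤ δ * (X / L * Gs) + 2 * e := by
    have h1 : T = ∑ h ∈ H, ∑ n ∈ Ioc X (2 * X), w n * (if (n + h).Prime then 1 else 0) := by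
      rw [hT, sum_comm]
      refine sum_congr rfl fun n _ => ?_
      rw [prs_eq, mul_sum]
    have h2 : |T - ∑ h ∈ H, (pi1 (2 * X + h) - pi1 (X + h)) * GG Q c h| ≤ 2 * e := by
      rw [h1, ← sum_sub_distrib]
      refine (abs_sum_le_sum_abs _ _).trans ((sum_le_sum fun h hh =>
        hsh X hX1 Q hQ1 (hQB B1 (by omega)) c hc h (hHX h hh)).trans ?_)
      rw [sum_const, nsmul_eq_mul]
      linarith
    have h3 : |∑ h ∈ H, (pi1 (2 * X + h) - pi1 (X + h)) * GG Q c h - X / L * Gs| ≤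
        δ * (X / L * Gs) := by
      rw [hGs, mul_sum, ← sum_sub_distrib, mul_sum]
      refine (abs_sum_le_sum_abs _ _).trans (sum_le_sum fun h hh => ?_)
      have h4 := hdy X hX3 h (hHX h hh)
      rw [← sub_mul, abs_mul, abs_of_nonneg (hGG h)]
      have h5 : |pi1 (2 * X + h) - pi1 (X + h) - X / L| ≤ δ * (X / L) := by
        rw [abs_le]
        constructor <;> nlinarith [h4.1, h4.2]
      have := mul_le_mul_of_nonneg_right h5 (hGG h)
      linarith
    have e1 : T - X / L * Gs = (T - ∑ h ∈ H, (pi1 (2 * X + h) - pi1 (X + h)) * GG Q c h) +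
        (∑ h ∈ H, (pi1 (2 * X + h) - pi1 (X + h)) * GG Q c h - X / L * Gs) := by ring
    rw [e1]
    refine (abs_add_le _ _).trans ?_
    linarith
  -- (b) the model
  have hb0 : |∑ n ∈ range N, w n * (SV H (PQ Q) n).card - D * RN| ≤
      δ * (D * RN) + C1 * er0 * ∑ n ∈ range N, w n := by
    have h1 : ∀ F : ℕ → ℝ, ∑ n ∈ range N, w n * F n =
        ∑ j ∈ range J, ∑ n ∈ range N, wt Q (g j) n ^ 2 * F n := by
      intro F
      rw [sum_comm]
      refine sum_congr rfl fun n _ => ?_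
      rw [hsos n, sum_mul]
    have h2 : ∑ n ∈ range N, w n = ∑ j ∈ range J, ∑ n ∈ range N, wt Q (g j) n ^ 2 := by
      rw [sum_comm]
      exact sum_congr rfl fun n _ => hsos n
    rw [hRN, h1, h1, h2]
    have h3 : ∀ j ∈ range J, |∑ n ∈ range N, wt Q (g j) n ^ 2 * (SV H (PQ Q) n).card -
        D * ∑ n ∈ range N, wt Q (g j) n ^ 2 * (SV H S n).card| ≤
        δ * (D * ∑ n ∈ range N, wt Q (g j) n ^ 2 * (SV H S n).card) +
          C1 * er0 * ∑ n ∈ range N, wt Q (g j) n ^ 2 := fun j _ =>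
      A1 Q y S H N (wt Q (g j)) hy hyQ hS hyS hSc hH hN0 hdN (wt_isWeight W N Q (g j) hdN)
    rw [mul_sum, ← sum_sub_distrib, mul_sum, mul_sum, ← sum_add_distrib]
    exact (abs_sum_le_sum_abs _ _).trans (sum_le_sum h3)
  have hb1 : ∑ n ∈ range N, w n * (SV H (PQ Q) n).card = N * v * Gs := by
    have h1 : ∑ n ∈ range N, w n * ((SV H (PQ Q) n).card : ℝ) =
        ∑ h ∈ H, ∑ n ∈ range N, wt Q c n * (if ∀ p ∈ PQ Q, ¬ p ∣ n + h then 1 else 0) := by
      rw [sum_comm]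
      refine sum_congr rfl fun n _ => ?_
      rw [SV_card, mul_sum]
    rw [h1, hGs, mul_sum]
    exact sum_congr rfl fun h _ => sum_wt_free Q N h c hN0 hdN'
  have hb2 : ∑ n ∈ range N, w n = N * mu Q c := sum_wt Q N c hdN'
  set RX : ℝ := X / N * RN with hRX
  have hRX0 : 0 ≤ RX := by positivity
  have hmu : X * mu Q c ≤ 2 * A := by
    have h1 := (abs_le.1 (sum_dy Q X c)).1
    have h2 := sum_ss (K := K) (L := L) hL1 hc
    have h3 : (Q : ℝ) * L ^ K ≤ X / L ^ K := by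
      rw [le_div_iff₀ (by positivity)]
      calc (Q : ℝ) * L ^ K * L ^ K = Q * L ^ (2 * K) := by ring
        _ ≤ (Q : ℝ) ^ 2 * L ^ (2 * K) := by
            refine mul_le_mul_of_nonneg_right ?_ (by positivity)
            nlinarith
        _ ≤ X := hQB (2 * K) (by omega)
    have h4 : X / L ^ K ≤ A := hmass
    have h5 : ∑ n ∈ Ioc X (2 * X), wt Q c n = A := rfl
    rw [h5] at h1
    linarith
  have hb : |X / L * Gs - ch * RX| ≤ δ * (ch * RX) + 2 * C1 / cm * er0 * A := by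
    have h1 : X / L * Gs - ch * RX = X / (N * (L * v)) *
        (∑ n ∈ range N, w n * (SV H (PQ Q) n).card - D * RN) := by
      rw [hb1, hRX, hch, hvv]
      have := hD01.1.ne'
      field_simp
    have h2 : 0 < X / (N * (L * v)) := by positivity
    rw [h1, abs_mul, abs_of_pos h2]
    refine (mul_le_mul_of_nonneg_left hb0 h2.le).trans ?_
    have h3 : X / (N * (L * v)) * (δ * (D * RN) + C1 * er0 * ∑ n ∈ range N, w n) =
        δ * (ch * RX) + C1 * er0 * ((X * mu Q c) * (1 / (L * v))) := by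
      rw [hb2, hRX, hch, hvv]
      have := hD01.1.ne'
      field_simp
    rw [h3]
    have h4 : (X * mu Q c) * (1 / (L * v)) ≤ 2 * A * (1 / cm) :=
      mul_le_mul hmu hLv (by positivity) (by positivity)
    have h5 : 0 ≤ C1 * er0 := mul_nonneg hC1.le (by linarith)
    have h6 := mul_le_mul_of_nonneg_left h4 h5
    have h7 : C1 * er0 * (2 * A * (1 / cm)) = 2 * C1 / cm * er0 * A := by ring
    linarith
  -- (c) the interval
  have hc3 : |R - RX| ≤ e := by
    have h1 : R = ∑ h ∈ H, ∑ n ∈ Ioc X (2 * X), wt Q c n *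
        (if ∀ p ∈ S, ¬ p ∣ n + h then 1 else 0) := by
      rw [hR, sum_comm]
      refine sum_congr rfl fun n _ => ?_
      rw [SV_card, mul_sum]
    have h2 : RX = ∑ h ∈ H, X / N * ∑ n ∈ range N, wt Q c n *
        (if ∀ p ∈ S, ¬ p ∣ n + h then 1 else 0) := by
      rw [hRX, hRN, ← mul_sum, sum_comm]
      congr 1
      refine sum_congr rfl fun n _ => ?_
      rw [SV_card, mul_sum]
    rw [h1, h2, ← sum_sub_distrib]
    refine (abs_sum_le_sum_abs _ _).trans ((sum_le_sum fun h _ =>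
      hiv X hX2 Q y N S c hy (fun p hp => (hS p hp).1) hSc hBy hQX2 hc hXN h).trans ?_)
    rw [sum_const, nsmul_eq_mul]
    exact hcard
  -- conclusion
  set C2 : ℝ := 2 * C1 / cm with hC2
  have hC20 : 0 < C2 := by positivity
  have hY : X / L * Gs ≤ 2 * (ch * RX) + C2 * er0 * A := by
    have h1 := (abs_le.1 hb).2
    have h2 : δ * (ch * RX) ≤ 1 * (ch * RX) := mul_le_mul_of_nonneg_right (by linarith) (by positivity)
    linarith
  have hchR : |ch * RX - ch * R| ≤ 1 / cm * e := by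
    rw [← mul_sub, abs_mul, abs_of_pos hch0, abs_sub_comm]
    exact mul_le_mul hch1 hc3 (abs_nonneg _) (by positivity)
  have hE0 : 0 ≤ C2 * er0 * A := mul_nonneg (mul_nonneg hC20.le (by linarith)) hA0.le
  have hchR2 := (abs_le.1 hchR).2
  have h1 : |T - ch * R| ≤ |T - X / L * Gs| + |X / L * Gs - ch * RX| + |ch * RX - ch * R| := by
    have e1 : T - ch * R = (T - X / L * Gs) + (X / L * Gs - ch * RX) + (ch * RX - ch * R) := by ring
    rw [e1]
    exact abs_add_three _ _ _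
  have h2 : δ * (X / L * Gs) ≤ δ * (2 * (ch * RX) + C2 * er0 * A) :=
    mul_le_mul_of_nonneg_left hY hδ0.le
  have h3 : δ * (C2 * er0 * A) ≤ 1 * (C2 * er0 * A) := mul_le_mul_of_nonneg_right (by linarith) hE0
  have h4 : δ * (ch * RX) ≤ δ * (ch * R + 1 / cm * e) :=
    mul_le_mul_of_nonneg_left (by linarith) hδ0.le
  have h5 : 3 * δ * (1 / cm * e) ≤ 1 * (1 / cm * e) :=
    mul_le_mul_of_nonneg_right (by linarith) (by positivity)
  have h6 : 3 * δ * (ch * R) ≤ ε * (ch * R) :=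
    mul_le_mul_of_nonneg_right (by linarith) (by positivity)
  have h7 : |T - ch * R| ≤ ε * (ch * R) + 2 * (C2 * er0 * A) + (2 + 2 * (1 / cm)) * e := by
    have h10 := hb
    have h11 := ha
    have h12 := hchR
    linarith
  refine h7.trans ?_
  have h8 : (2 + 2 * (1 / cm)) * e ≤ (2 + 2 * (1 / cm)) * (2 * er0 * A) := by
    refine mul_le_mul_of_nonneg_left ?_ (by positivity)
    have : 1 * A ≤ 2 * er0 * A := mul_le_mul_of_nonneg_right (by linarith) hA0.le
    linarith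
  have h9 : (4 * C1 / cm + 2 * (3 + 2 / cm)) * er0 * A =
      2 * (C2 * er0 * A) + (2 + 2 * (1 / cm)) * (2 * er0 * A) + 2 * (er0 * A) := by
    rw [hC2]
    ring
  have h10 : 0 ≤ er0 * A := mul_nonneg (by linarith) hA0.le
  rw [h9]
  linarith

end Pool.Agent.Y830.PR
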