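import Pool.Agent.Y830.SQ.Ind

/-!
The mean number of the surviving sites: additive form of the error.
-/

set_option autoImplicit false

namespace Pool.Agent.Y830.PR

open Finset
open Pool.Agent.Y835.SB Pool.Agent.Y830.SQ

theorem Bin_zero_eq (N : ℕ) (H : Finset ℕ) (V : ℕ → ℝ) (P : Finset ℕ) :
    Bin N H 0 V P = SS N V := by
  unfold Bin SS
  refine sum_congr rfl fun n _ => ?_
  rw [Nat.choose_zero_right, Nat.cast_one, mul_one]

theorem DD_zero (P : Finset ℕ) : DD 0 P = 1 := by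
  unfold DD
  refine prod_eq_one fun q _ => ?_
  rw [Nat.cast_zero, zero_div, sub_zero]

theorem add1 (ε : ℝ) (hε : 0 < ε) : ∃ C : ℝ, 0 < C ∧
    ∀ (R : ℝ) (y : ℕ) (L : ℝ) (H P : Finset ℕ) (W N : ℕ) (V : ℕ → ℝ), 1 ≤ R → 3 ≤ y → 1 ≤ L →
      Real.log R ≤ L * Real.log y → Ok H P W N → (∀ p ∈ P, y ≤ p) → IsWeight W N R V →
      |Bin N H 1 V P - H.card * DD 1 P * SS N V| ≤
        DD 1 P * ((ε * H.card + C * (L * (1 + Real.log L))) * SS N V) := by
  obtain ⟨CM, hCM0, hCM⟩ := mer_local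
  set ε₁ : ℝ := min ε 1 / 8 with hε₁
  have hε₁0 : 0 < ε₁ := by
    have : 0 < min ε 1 := lt_min hε one_pos
    positivity
  have hε₁1 : ε₁ ≤ 1 / 8 := by
    have : min ε 1 ≤ 1 := min_le_right _ _
    linarith
  have hε₁ε : 8 * ε₁ ≤ ε := by
    have : min ε 1 ≤ ε := min_le_left _ _
    linarith
  set c1 : ℝ := Real.exp (2 + CM) with hc1
  have hc10 : 0 < c1 := Real.exp_pos _
  set C0 : ℝ := 8 * (1 + CM) * c1 / ε₁ with hC0
  have hC00 : 0 < C0 := by positivity
  refine ⟨2 * C0, by positivity, fun R y L H P W N V hR hy hL hRL hok hpy hV => ?_⟩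
  have hlR0 : 0 ≤ Real.log R := Real.log_nonneg hR
  have hly := one_le_log hy
  have hlL : 0 ≤ Real.log L := Real.log_nonneg hL
  have h2p : ∀ p ∈ P, 2 * (0 + 1) < p := fun p hp => by
    have := hpy p hp
    omega
  have hD : Dat N (Mc N) (Kc N) P := datc hok.1 fun p hp => ⟨(hok.2 p hp).1, (hok.2 p hp).2.1⟩
  set PR : Finset ℕ := P.filter (fun q : ℕ => (q : ℝ) ≤ R) with hPR
  have hΛ : ∑ q ∈ PR, 1 / (q : ℝ) ≤ (1 + CM) * (1 + Real.log L) := by
    by_cases hkR : y ≤ ⌊R⌋₊
    · have h1 := hCM y ⌊R⌋₊ hy hkR PR fun q hq => by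
        rw [hPR, mem_filter] at hq
        exact ⟨(hok.2 q hq.1).1, hpy q hq.1, Nat.le_floor hq.2⟩
      have h2 : Real.log (Real.log ⌊R⌋₊ / Real.log y) ≤ Real.log L := by
        have hz : 1 ≤ Real.log (⌊R⌋₊ : ℕ) := one_le_log (by omega)
        refine Real.log_le_log (by positivity) ?_
        rw [div_le_iff₀ (by linarith)]
        refine le_trans (Real.log_le_log ?_ (Nat.floor_le (by linarith))) hRL
        exact_mod_cast (by omega : 0 < ⌊R⌋₊)
      nlinarith
    · have h1 : PR = ∅ := by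
        rw [hPR, filter_eq_empty_iff]
        intro q hq hqR
        have h2 := hpy q hq
        have h3 := Nat.le_floor hqR
        omega
      rw [h1, sum_empty]
      positivity
  set Λ : ℝ := (1 + CM) * (1 + Real.log L) with hΛd
  have hΛ1 : 1 ≤ Λ := by nlinarith
  set η : ℝ := ε₁ / (2 * Λ) with hη
  have hη0 : 0 < η := by positivity
  have hη1 : η ≤ 1 := by
    rw [hη, div_le_one (by positivity)]
    nlinarith
  have hηs : 2 * η * Λ = ε₁ := by
    rw [hη]
    field_simp
  set E : ℕ → ℝ := fun q => c1 * (Real.log q / Real.log y) *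
    SS N (V - Av (Mc N q) (Kc N q) V) with hE
  have hE0 : ∀ q, 0 ≤ E q := fun q => by
    have h1 := SS_nonneg N (V - Av (Mc N q) (Kc N q) V)
    have h2 := Real.log_natCast_nonneg q
    simp only [hE]
    positivity
  have hEp : ∀ p ∈ P, (p : ℝ) ≤ R → Bin N H 0 (V - Av (Mc N p) (Kc N p) V)
      (P.filter (fun q => q < p)) ≤ DD (0 + 1) (P.filter (fun q => q < p)) * E p := by
    intro p hp hpR
    set Q := P.filter (fun q => q < p) with hQ
    have hQP : Q ⊆ P := filter_subset _ _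
    set S := SS N (V - Av (Mc N p) (Kc N p) V) with hS
    have hS0 : 0 ≤ S := SS_nonneg _ _
    rw [Bin_zero_eq]
    have h3 := DD_ratio (s := 0) (Q := Q) fun q hq => h2p q (hQP hq)
    rw [DD_zero] at h3
    have hkp := hpy p hp
    have h4 := hCM y p hy hkp Q fun q hq => by
      rw [hQ, mem_filter] at hq
      exact ⟨(hok.2 q hq.1).1, hpy q hq.1, hq.2.le⟩
    have hlp : 0 < Real.log p := by
      have := one_le_log (hy.trans hkp)
      linarith
    have hlk0 : 0 < Real.log y := by linarith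
    have h5 : Real.exp (∑ q ∈ Q, 1 / (q : ℝ) + 2 * (((0 : ℕ) : ℝ) + 1)) ≤
        c1 * (Real.log p / Real.log y) := by
      have h6 : c1 * (Real.log p / Real.log y) =
          Real.exp (2 + CM + Real.log (Real.log p / Real.log y)) := by
        rw [Real.exp_add, Real.exp_log (by positivity)]
      rw [h6]
      push_cast
      refine Real.exp_le_exp.2 ?_
      linarith
    have hDD := DD_pos (s := 0 + 1) (Q := Q) fun q hq => h2p q (hQP hq)
    have h6 : 1 ≤ DD (0 + 1) Q * (c1 * (Real.log p / Real.log y)) :=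
      h3.trans (mul_le_mul_of_nonneg_left h5 hDD.le)
    have h8 := mul_le_mul_of_nonneg_left h6 hS0
    simp only [hE]
    linarith
  have hmain := recur hV.per H 0 hη0 hη1 R E hE0 P hD h2p (fun p hp => (hok.2 p hp).2.2.2)
    (fun p hp hpR => hV.big (hok.2 p hp).1 (hok.2 p hp).2.2.1 hpR) hEp
  obtain ⟨hlow, hup⟩ := hmain
  rw [Bin_empty] at hlow hup
  simp only [zero_add, Nat.choose_one_right, Nat.cast_one, mul_one] at hlow hup
  set k : ℝ := (H.card : ℝ) with hk
  have hk0 : 0 ≤ k := Nat.cast_nonneg _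
  set SV' : ℝ := SS N V with hSV'
  have hSS0 : 0 ≤ SV' := SS_nonneg N V
  have hDD0 : 0 < DD 1 P := DD_pos h2p
  set D := DD 1 P with hDd
  have herr : 2 * (1 + 1 / η) * ∑ q ∈ PR, E q ≤ C0 * (L * (1 + Real.log L)) * SV' := by
    have h1 : ∑ q ∈ PR, E q ≤ c1 * L * SV' := by
      have hlev := hV.lev hok.1 (fun p hp => ⟨(hok.2 p hp).1, (hok.2 p hp).2.1⟩)
        (fun p hp => (hok.2 p hp).2.2.1)
      have h2 : ∑ q ∈ PR, E q = c1 / Real.log y *
          ∑ q ∈ PR, Real.log q * SS N (V - Av (Mc N q) (Kc N q) V) := by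
        rw [mul_sum]
        refine sum_congr rfl fun q _ => ?_
        simp only [hE]
        ring
      have h3 : ∑ q ∈ PR, Real.log q * SS N (V - Av (Mc N q) (Kc N q) V) ≤ Real.log R * SV' := by
        refine le_trans (sum_le_sum_of_subset_of_nonneg (filter_subset _ _) fun p _ _ => ?_) hlev
        exact mul_nonneg (Real.log_natCast_nonneg p) (SS_nonneg _ _)
      have h4 : ∑ q ∈ PR, Real.log q * SS N (V - Av (Mc N q) (Kc N q) V) ≤
          L * Real.log y * SV' := h3.trans (mul_le_mul_of_nonneg_right hRL hSS0)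
      rw [h2]
      calc c1 / Real.log y * ∑ q ∈ PR, Real.log q * SS N (V - Av (Mc N q) (Kc N q) V)
          ≤ c1 / Real.log y * (L * Real.log y * SV') := mul_le_mul_of_nonneg_left h4 (by positivity)
        _ = c1 * L * SV' := by field_simp
    have h2 : 1 + 1 / η ≤ 2 / η := by
      have : 1 ≤ 1 / η := by rw [le_div_iff₀ hη0]; linarith
      have e : 2 / η = 1 / η + 1 / η := by ring
      linarith
    have h3 : 1 / η = 2 * Λ / ε₁ := by
      rw [hη, one_div_div]
    have hES0 : 0 ≤ ∑ q ∈ PR, E q := sum_nonneg fun q _ => hE0 q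
    calc 2 * (1 + 1 / η) * ∑ q ∈ PR, E q
        ≤ 2 * (2 / η) * (c1 * L * SV') := by
          refine mul_le_mul (by linarith) h1 hES0 (by positivity)
      _ = 4 * (1 / η) * (c1 * L * SV') := by ring
      _ = C0 * (L * (1 + Real.log L)) * SV' := by
          rw [h3, hC0, hΛd]
          ring
  have hA : ∑ q ∈ PR, 2 * η / (q : ℝ) ≤ ε₁ := by
    have h1 : ∑ q ∈ PR, 2 * η / (q : ℝ) = 2 * η * ∑ q ∈ PR, 1 / (q : ℝ) := by
      rw [mul_sum]
      exact sum_congr rfl fun q _ => by ring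
    rw [h1, ← hηs]
    exact mul_le_mul_of_nonneg_left hΛ (by positivity)
  have hprod : ∏ q ∈ PR, (1 + 2 * η / (q : ℝ)) ≤ 1 + 2 * ε₁ := by
    have h1 : ∏ q ∈ PR, (1 + 2 * η / (q : ℝ)) ≤ Real.exp (∑ q ∈ PR, 2 * η / (q : ℝ)) := by
      rw [Real.exp_sum]
      refine prod_le_prod (fun q _ => by positivity) fun q _ => ?_
      have := Real.add_one_le_exp (2 * η / (q : ℝ))
      linarith
    refine h1.trans ((Real.exp_le_exp.2 hA).trans ?_)
    have h2 := Real.exp_bound_div_one_sub_of_interval hε₁0.le (by linarith)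
    refine h2.trans ?_
    rw [div_le_iff₀ (by linarith)]
    nlinarith
  set X : ℝ := Bin N H 1 V P with hX
  set ESv : ℝ := 2 * (1 + 1 / η) * ∑ q ∈ PR, E q with hESv
  set Av' : ℝ := ∑ q ∈ PR, 2 * η / (q : ℝ) with hAv'
  set Pv : ℝ := ∏ q ∈ PR, (1 + 2 * η / (q : ℝ)) with hPv
  set T : ℝ := C0 * (L * (1 + Real.log L)) * SV' with hT
  have hT0 : 0 ≤ T := by positivity
  have hESv0 : 0 ≤ ESv := by
    rw [hESv]
    exact mul_nonneg (by positivity) (sum_nonneg fun q _ => hE0 q)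
  have hB0 : 0 ≤ k * SV' := mul_nonneg hk0 hSS0
  have hgoal : D * ((ε * k + 2 * C0 * (L * (1 + Real.log L))) * SV') =
      D * (ε * (k * SV') + 2 * T) := by rw [hT]; ring
  have hgoal2 : k * D * SV' = D * (k * SV') := by ring
  rw [hgoal, hgoal2, abs_le]
  have hεB : 8 * ε₁ * (k * SV') ≤ ε * (k * SV') := mul_le_mul_of_nonneg_right hε₁ε hB0
  constructor
  · have h1 : (k * SV') - (ε * (k * SV') + 2 * T) ≤ (1 - Av') * (k * SV') - ESv := by
      have := mul_le_mul_of_nonneg_right hA hB0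
      nlinarith
    have h2 := mul_le_mul_of_nonneg_left h1 hDD0.le
    linarith
  · have h1 : Pv * (k * SV' + ESv) ≤ (k * SV') + (ε * (k * SV') + 2 * T) := by
      have h3 : Pv * (k * SV' + ESv) ≤ (1 + 2 * ε₁) * (k * SV' + T) :=
        mul_le_mul hprod (by linarith) (by positivity) (by positivity)
      nlinarith
    have h2 := mul_le_mul_of_nonneg_left h1 hDD0.le
    linarith

end Pool.Agent.Y830.PR
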