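import Pool.Agent.Y829.RP3
import Pool.Agent.Y830.SQ.Poi

/-!
Brun's pure sieve in residue classes, for the small primes.
-/

set_option autoImplicit false

namespace Pool.Agent.Y830.PR

open Finset
open Pool.Agent.Y829 Pool.Agent.Y829.RP

/-- elementary symmetric sums -/
noncomputable def es (x : ℕ → ℝ) (i : ℕ) (P : Finset ℕ) : ℝ :=
  ∑ T ∈ powersetCard i P, ∏ p ∈ T, x p

theorem es_zero (x : ℕ → ℝ) (P : Finset ℕ) : es x 0 P = 1 := by
  unfold es
  rw [powersetCard_zero, sum_singleton, prod_empty]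

theorem es_empty (x : ℕ → ℝ) (i : ℕ) : es x (i + 1) ∅ = 0 := by
  unfold es
  rw [powersetCard_eq_empty.2 (by rw [card_empty]; omega), sum_empty]

theorem es_nonneg {x : ℕ → ℝ} (i : ℕ) {P : Finset ℕ} (hx : ∀ p ∈ P, 0 ≤ x p) : 0 ≤ es x i P := by
  unfold es
  refine sum_nonneg fun T hT => prod_nonneg fun p hp => hx p ?_
  exact (mem_powersetCard.1 hT).1 hp

theorem es_insert (x : ℕ → ℝ) (i : ℕ) {p : ℕ} {P : Finset ℕ} (hp : p ∉ P) :
    es x (i + 1) (insert p P) = es x (i + 1) P + x p * es x i P := by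
  classical
  unfold es
  rw [powersetCard_succ_insert hp, sum_union, sum_image, mul_sum]
  · congr 1
    refine sum_congr rfl fun T hT => ?_
    rw [prod_insert fun h => hp ((mem_powersetCard.1 hT).1 h)]
  · intro T hT T' hT' h
    have h1 : p ∉ T := fun h => hp ((mem_powersetCard.1 hT).1 h)
    have h2 : p ∉ T' := fun h => hp ((mem_powersetCard.1 hT').1 h)
    rw [← erase_insert h1, ← erase_insert h2, h]
  · rw [disjoint_left]
    intro T hT hT'
    obtain ⟨T', _, rfl⟩ := mem_image.1 hT'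
    exact hp ((mem_powersetCard.1 hT).1 (mem_insert_self p T'))

theorem sum_es_insert (x : ℕ → ℝ) (t : ℕ) {p : ℕ} {P : Finset ℕ} (hp : p ∉ P) :
    ∑ i ∈ range (t + 1), (-1) ^ i * es x i (insert p P) =
      ∑ i ∈ range (t + 1), (-1) ^ i * es x i P - x p * ∑ i ∈ range t, (-1) ^ i * es x i P := by
  rw [sum_range_succ', sum_range_succ' (fun i => (-1) ^ i * es x i P)]
  simp only [es_zero, es_insert x _ hp, mul_add, sum_add_distrib, pow_succ]
  rw [mul_sum]
  have h1 : ∑ i ∈ range t, (-1 : ℝ) ^ i * -1 * (x p * es x i P) =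
      - ∑ i ∈ range t, x p * ((-1) ^ i * es x i P) := by
    rw [← sum_neg_distrib]
    exact sum_congr rfl fun i _ => by ring
  rw [h1]
  ring

/-- the inequalities of Bonferroni for products -/
theorem prodB {x : ℕ → ℝ} (P : Finset ℕ) (hx : ∀ p ∈ P, 0 ≤ x p ∧ x p ≤ 1) (t : ℕ) :
    |∏ p ∈ P, (1 - x p) - ∑ i ∈ range t, (-1) ^ i * es x i P| ≤ es x t P := by
  classical
  induction P using Finset.induction_on generalizing t with
  | empty =>
    rcases t with _ | t
    · rw [prod_empty, range_zero, sum_empty, sub_zero, abs_one, es_zero]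
    · rw [prod_empty, sum_range_succ', es_empty]
      simp only [es_empty, mul_zero, sum_const_zero, pow_zero, es_zero, mul_one, zero_add, sub_self,
        abs_zero, le_refl]
  | insert p P hp ih =>
    have hx' : ∀ q ∈ P, 0 ≤ x q ∧ x q ≤ 1 := fun q hq => hx q (mem_insert_of_mem hq)
    have hxp := hx p (mem_insert_self p P)
    have ih' := ih hx'
    rcases t with _ | t
    · rw [range_zero, sum_empty, sub_zero, es_zero, abs_of_nonneg
        (prod_nonneg fun q hq => by have := (hx q hq).2; linarith)]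
      exact prod_le_one (fun q hq => by have := (hx q hq).2; linarith)
        fun q hq => by have := (hx q hq).1; linarith
    · rw [prod_insert hp, sum_es_insert x t hp, es_insert x t hp]
      have h1 := ih' (t + 1)
      have h2 := ih' t
      have e : (1 - x p) * ∏ q ∈ P, (1 - x q) -
          (∑ i ∈ range (t + 1), (-1) ^ i * es x i P - x p * ∑ i ∈ range t, (-1) ^ i * es x i P) =
          (∏ q ∈ P, (1 - x q) - ∑ i ∈ range (t + 1), (-1) ^ i * es x i P) -
            x p * (∏ q ∈ P, (1 - x q) - ∑ i ∈ range t, (-1) ^ i * es x i P) := by ring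
      rw [e]
      refine (abs_sub _ _).trans ?_
      rw [abs_mul, abs_of_nonneg hxp.1]
      have := mul_le_mul_of_nonneg_left h2 hxp.1
      linarith

theorem pow_add_ge {a b : ℝ} (ha : 0 ≤ a) (hb : 0 ≤ b) (n : ℕ) :
    a ^ (n + 1) + (n + 1) * b * a ^ n ≤ (a + b) ^ (n + 1) := by
  induction n with
  | zero => simp
  | succ n ih =>
    have h1 := mul_le_mul_of_nonneg_left ih (add_nonneg ha hb)
    have h2 : 0 ≤ ((n : ℝ) + 1) * b * b * a ^ n := by positivity
    have e : (a + b) ^ (n + 1 + 1) = (a + b) * (a + b) ^ (n + 1) := by ring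
    rw [e]
    refine le_trans ?_ h1
    push_cast
    have e2 : (a + b) * (a ^ (n + 1) + ((n : ℝ) + 1) * b * a ^ n) =
      a ^ (n + 1 + 1) + ((n : ℝ) + 1 + 1) * b * a ^ (n + 1) + ((n : ℝ) + 1) * b * b * a ^ n := by
      ring
    rw [e2]
    linarith

theorem es_le {x : ℕ → ℝ} (P : Finset ℕ) (hx : ∀ p ∈ P, 0 ≤ x p) (t : ℕ) :
    es x t P ≤ (∑ p ∈ P, x p) ^ t / (t.factorial : ℕ) := by
  classical
  induction P using Finset.induction_on generalizing t with
  | empty =>
    rcases t with _ | t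
    · rw [es_zero]; simp
    · rw [es_empty]; simp
  | insert p P hp ih =>
    have hx' : ∀ q ∈ P, 0 ≤ x q := fun q hq => hx q (mem_insert_of_mem hq)
    have hxp := hx p (mem_insert_self p P)
    have hs : 0 ≤ ∑ q ∈ P, x q := sum_nonneg hx'
    rw [sum_insert hp]
    rcases t with _ | t
    · rw [es_zero]; simp
    · rw [es_insert x t hp]
      have h1 := ih hx' (t + 1)
      have h2 := mul_le_mul_of_nonneg_left (ih hx' t) hxp
      have h3 := pow_add_ge hs hxp t
      have hf : (0 : ℝ) < ((t + 1).factorial : ℕ) := by exact_mod_cast (t + 1).factorial_pos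
      have hf' : (0 : ℝ) < (t.factorial : ℕ) := by exact_mod_cast t.factorial_pos
      have h4 : (((t + 1).factorial : ℕ) : ℝ) = (t + 1) * (t.factorial : ℕ) := by
        rw [Nat.factorial_succ]; push_cast; ring
      calc es x (t + 1) P + x p * es x t P
          ≤ (∑ q ∈ P, x q) ^ (t + 1) / ((t + 1).factorial : ℕ) +
            x p * ((∑ q ∈ P, x q) ^ t / (t.factorial : ℕ)) := add_le_add h1 h2
        _ = ((∑ q ∈ P, x q) ^ (t + 1) + (t + 1) * x p * (∑ q ∈ P, x q) ^ t) /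
            ((t + 1).factorial : ℕ) := by
            rw [h4]
            field_simp
        _ ≤ (∑ q ∈ P, x q + x p) ^ (t + 1) / ((t + 1).factorial : ℕ) :=
            div_le_div_of_nonneg_right h3 hf.le
        _ = _ := by rw [add_comm (x p)]

/-- one class modulo `q` and divisibility by the primes of `T` -/
theorem cnt_T (u L q a h : ℕ) (hq : 0 < q) (ha : a < q) (T : Finset ℕ)
    (hT : ∀ p ∈ T, p.Prime ∧ ¬ p ∣ q) :
    |(((Ico u (u + L)).filter (fun n => n % q = a ∧ ∀ p ∈ T, p ∣ n + h)).card : ℝ) -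
      L / q * ∏ p ∈ T, 1 / (p : ℝ)| ≤ 1 := by
  obtain ⟨v, hv⟩ := crt q T (fun p hp => (hT p hp).1)
    (fun p hp => ((Nat.Prime.coprime_iff_not_dvd (hT p hp).1).2 (hT p hp).2).symm) a ha
    (fun p => (p - h % p) % p) (fun p hp => Nat.mod_lt _ (hT p hp).1.pos)
  have h1 : (Ico u (u + L)).filter (fun n => n % q = a ∧ ∀ p ∈ T, p ∣ n + h) =
      (Ico u (u + L)).filter (fun n => n ≡ v [MOD (q * ∏ p ∈ T, p)]) := by
    refine filter_congr fun n _ => ?_
    rw [← hv n]
    refine and_congr_right fun _ => forall₂_congr fun p hp => ?_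
    have hp0 := (hT p hp).1.pos
    have hlt := Nat.mod_lt h hp0
    constructor
    · intro h2
      have h3 : n + h % p ≡ 0 [MOD p] := by
        have h4 : n + h ≡ 0 [MOD p] := (Nat.modEq_zero_iff_dvd).2 h2
        exact ((Nat.ModEq.refl n).add (Nat.mod_modEq h p)).trans h4
      have h5 : n ≡ p - h % p [MOD p] := by
        have h6 : n + h % p ≡ (p - h % p) + h % p [MOD p] := by
          rw [Nat.sub_add_cancel hlt.le]
          exact h3.trans ((Nat.modEq_zero_iff_dvd).2 dvd_rfl).symm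
        exact Nat.ModEq.add_right_cancel' _ h6
      exact h5
    · intro h2
      have h5 : n ≡ p - h % p [MOD p] := h2
      have h6 : n + h % p ≡ (p - h % p) + h % p [MOD p] := h5.add_right _
      rw [Nat.sub_add_cancel hlt.le] at h6
      have h7 : n + h ≡ n + h % p [MOD p] := (Nat.ModEq.refl n).add (Nat.mod_modEq h p).symm
      exact (Nat.modEq_zero_iff_dvd).1 ((h7.trans h6).trans ((Nat.modEq_zero_iff_dvd).2 dvd_rfl))
  have hM : 0 < q * ∏ p ∈ T, p := Nat.mul_pos hq (prod_pos fun p hp => (hT p hp).1.pos)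
  have h2 := cnt_mod u (u + L) (q * ∏ p ∈ T, p) v (by omega) hM
  rw [h1]
  have e : ((((u + L : ℕ) : ℝ) - u) / ((q * ∏ p ∈ T, p : ℕ) : ℝ)) =
      L / q * ∏ p ∈ T, 1 / (p : ℝ) := by
    have h3 : (((u + L : ℕ) : ℝ) - u) = L := by push_cast; ring
    rw [h3, Nat.cast_mul, Nat.cast_prod, prod_div_distrib, prod_const_one]
    have hq0 : (q : ℝ) ≠ 0 := by exact_mod_cast hq.ne'
    have h4 : (∏ p ∈ T, (p : ℝ)) ≠ 0 :=
      prod_ne_zero_iff.2 fun p hp => by exact_mod_cast (hT p hp).1.ne_zero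
    field_simp
  rwa [e] at h2

/-- the binomial sums -/
theorem sum_choose (A P : Finset ℕ) (h i : ℕ) :
    ∑ n ∈ A, (((P.filter (fun p => p ∣ n + h)).card.choose i : ℕ) : ℝ) =
      ∑ T ∈ powersetCard i P, ((A.filter (fun n => ∀ p ∈ T, p ∣ n + h)).card : ℝ) := by
  have h1 : ∀ n, (((P.filter (fun p => p ∣ n + h)).card.choose i : ℕ) : ℝ) =
      ∑ T ∈ powersetCard i P, (if ∀ p ∈ T, p ∣ n + h then (1 : ℝ) else 0) := by
    intro n
    rw [← card_powersetCard, sum_boole]
    congr 2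
    ext T
    simp only [mem_powersetCard, mem_filter]
    constructor
    · rintro ⟨h2, h3⟩
      exact ⟨⟨fun p hp => (mem_filter.1 (h2 hp)).1, h3⟩, fun p hp => (mem_filter.1 (h2 hp)).2⟩
    · rintro ⟨⟨h2, h3⟩, h4⟩
      exact ⟨fun p hp => mem_filter.2 ⟨h2 hp, h4 p hp⟩, h3⟩
  rw [sum_congr rfl fun n _ => h1 n, sum_comm]
  refine sum_congr rfl fun T _ => ?_
  rw [sum_boole]

theorem choose_sum_le (m t : ℕ) : ∑ i ∈ range (t + 1), ((m.choose i : ℕ) : ℝ) ≤
    (t + 1) * (1 + (m : ℝ)) ^ t := by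
  have h1 : ∀ i ∈ range (t + 1), ((m.choose i : ℕ) : ℝ) ≤ (1 + (m : ℝ)) ^ t := by
    intro i hi
    rw [mem_range] at hi
    have h2 : ((m.choose i : ℕ) : ℝ) ≤ (m : ℝ) ^ i := by exact_mod_cast Nat.choose_le_pow m i
    have h3 : (m : ℝ) ^ i ≤ (1 + (m : ℝ)) ^ i :=
      pow_le_pow_left₀ (Nat.cast_nonneg m) (by linarith) i
    have h4 : (1 + (m : ℝ)) ^ i ≤ (1 + (m : ℝ)) ^ t :=
      pow_le_pow_right₀ (by have : (0 : ℝ) ≤ m := Nat.cast_nonneg m; linarith) (by omega)
    linarith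
  refine (sum_le_sum h1).trans ?_
  rw [sum_const, card_range, nsmul_eq_mul]
  push_cast
  exact le_refl _

/-- Brun's pure sieve -/
theorem brun (u L q a h : ℕ) (hq : 0 < q) (ha : a < q) (P : Finset ℕ)
    (hP : ∀ p ∈ P, p.Prime ∧ ¬ p ∣ q) (t : ℕ) :
    |(((Ico u (u + L)).filter (fun n => n % q = a ∧ ∀ p ∈ P, ¬ p ∣ n + h)).card : ℝ) -
      L / q * ∏ p ∈ P, (1 - 1 / (p : ℝ))| ≤
      2 * (L / q) * ((∑ p ∈ P, 1 / (p : ℝ)) ^ t / (t.factorial : ℕ)) +
        (t + 1) * (1 + (P.card : ℝ)) ^ t := by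
  classical
  set x : ℕ → ℝ := fun p => 1 / (p : ℝ) with hx
  have hx01 : ∀ p ∈ P, 0 ≤ x p ∧ x p ≤ 1 := by
    intro p hp
    have h1 : (1 : ℝ) ≤ p := by exact_mod_cast (hP p hp).1.one_lt.le
    simp only [hx]
    exact ⟨by positivity, by rw [div_le_one (by linarith)]; exact h1⟩
  set A := (Ico u (u + L)).filter (fun n => n % q = a) with hA
  set c : ℝ := (L : ℝ) / q with hc
  have hc0 : 0 ≤ c := by positivity
  set s : ℕ → ℕ := fun n => (P.filter (fun p => p ∣ n + h)).card with hs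
  -- the counts
  have h1 : ∀ T ⊆ P, |((A.filter (fun n => ∀ p ∈ T, p ∣ n + h)).card : ℝ) - c * ∏ p ∈ T, x p| ≤
      1 := by
    intro T hT
    have := cnt_T u L q a h hq ha T fun p hp => hP p (hT hp)
    rwa [← filter_filter] at this
  have h2 : ∀ i, |∑ n ∈ A, (((s n).choose i : ℕ) : ℝ) - c * es x i P| ≤ ((P.card.choose i : ℕ) : ℝ) := by
    intro i
    simp only [hs]
    rw [sum_choose]
    unfold es
    rw [mul_sum, ← sum_sub_distrib]
    refine (abs_sum_le_sum_abs _ _).trans ((sum_le_sum fun T hT =>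
      h1 T (mem_powersetCard.1 hT).1).trans ?_)
    rw [sum_const, card_powersetCard, nsmul_eq_mul, mul_one]
  have h3 : (((Ico u (u + L)).filter (fun n => n % q = a ∧ ∀ p ∈ P, ¬ p ∣ n + h)).card : ℝ) =
      ∑ n ∈ A, (if s n = 0 then (1 : ℝ) else 0) := by
    rw [← filter_filter, ← hA, sum_boole]
    congr 2
    refine filter_congr fun n _ => ?_
    simp only [hs]
    rw [card_eq_zero, filter_eq_empty_iff]
  have h4 : |∑ n ∈ A, (if s n = 0 then (1 : ℝ) else 0) -
      ∑ i ∈ range t, (-1) ^ i * ∑ n ∈ A, (((s n).choose i : ℕ) : ℝ)| ≤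
      ∑ n ∈ A, (((s n).choose t : ℕ) : ℝ) := by
    have h5 : ∑ i ∈ range t, (-1 : ℝ) ^ i * ∑ n ∈ A, (((s n).choose i : ℕ) : ℝ) =
        ∑ n ∈ A, ∑ i ∈ range t, (-1 : ℝ) ^ i * (((s n).choose i : ℕ) : ℝ) := by
      rw [sum_comm]
      exact sum_congr rfl fun i _ => by rw [mul_sum]
    rw [h5, ← sum_sub_distrib]
    refine (abs_sum_le_sum_abs _ _).trans (sum_le_sum fun n _ => ?_)
    exact Pool.Agent.Y830.SQ.alt (s n) t
  have h5 : |∑ i ∈ range t, (-1 : ℝ) ^ i * ∑ n ∈ A, (((s n).choose i : ℕ) : ℝ) -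
      c * ∑ i ∈ range t, (-1 : ℝ) ^ i * es x i P| ≤ ∑ i ∈ range t, ((P.card.choose i : ℕ) : ℝ) := by
    rw [mul_sum, ← sum_sub_distrib]
    refine (abs_sum_le_sum_abs _ _).trans (sum_le_sum fun i _ => ?_)
    have e : (-1 : ℝ) ^ i * ∑ n ∈ A, (((s n).choose i : ℕ) : ℝ) - c * ((-1) ^ i * es x i P) =
        (-1) ^ i * (∑ n ∈ A, (((s n).choose i : ℕ) : ℝ) - c * es x i P) := by ring
    rw [e, abs_mul, abs_pow, abs_neg, abs_one, one_pow, one_mul]
    exact h2 i
  have h6 := prodB P hx01 t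
  have h7 : |c * ∑ i ∈ range t, (-1 : ℝ) ^ i * es x i P - c * ∏ p ∈ P, (1 - x p)| ≤
      c * es x t P := by
    rw [← mul_sub, abs_mul, abs_of_nonneg hc0, abs_sub_comm]
    exact mul_le_mul_of_nonneg_left h6 hc0
  have h8 := (abs_le.1 (h2 t)).2
  have h9 := es_le P (fun p hp => (hx01 p hp).1) t
  have h10 := choose_sum_le P.card t
  rw [sum_range_succ] at h10
  rw [h3]
  have h11 := mul_le_mul_of_nonneg_left h9 hc0
  have h12 := abs_le.1 h4
  have h13 := abs_le.1 h5
  have h14 := abs_le.1 h7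
  rw [abs_le]
  constructor <;> nlinarith [h12.1, h12.2, h13.1, h13.2, h14.1, h14.2]

end Pool.Agent.Y830.PR
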