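import Pool.Agent.Y830.PR.Full
import Pool.Agent.Y830.SQ.Win
import Pool.Agent.Y829.RP3

/-!
Sum over the residue classes modulo the product of the small primes.
-/

set_option autoImplicit false

namespace Pool.Agent.Y830.PR

open Finset
open Pool.Agent.Y835.SB Pool.Agent.Y830.SQ Pool.Agent.Y829.RP

theorem SV_mod {H S : Finset ℕ} {W : ℕ} (hW : ∀ p ∈ S, p ∣ W) (n : ℕ) :
    SV H S (n % W) = SV H S n := by
  unfold SV
  refine filter_congr fun h _ => forall₂_congr fun p hp => not_congr ?_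
  have h1 : n + h = n % W + h + W * (n / W) := by
    have := Nat.mod_add_div n W
    omega
  rw [h1]
  exact Nat.dvd_add_iff_left (dvd_mul_of_dvd_left (hW p hp) _)

theorem SV_SV (H S P : Finset ℕ) (n : ℕ) : SV (SV H S n) P n = SV H (S ∪ P) n := by
  unfold SV
  rw [filter_filter]
  refine filter_congr fun h _ => ?_
  constructor
  · rintro ⟨h1, h2⟩ p hp
    rcases mem_union.1 hp with h3 | h3
    · exact h1 p h3
    · exact h2 p h3
  · intro h1
    exact ⟨fun p hp => h1 p (mem_union_left _ hp), fun p hp => h1 p (mem_union_right _ hp)⟩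

/-- the sum over the classes -/
theorem sum_cls' {W N : ℕ} (hW : 0 < W) (g : ℕ → ℕ → ℝ) :
    ∑ a ∈ range W, ∑ n ∈ range N, (if n % W = a then g a n else 0) =
      ∑ n ∈ range N, g (n % W) n := by
  rw [sum_comm]
  refine sum_congr rfl fun n _ => ?_
  rw [sum_ite_eq, if_pos (mem_range.2 (Nat.mod_lt _ hW))]

theorem clsum (ε : ℝ) (hε : 0 < ε) : ∃ C : ℝ, 0 < C ∧
    ∀ (Q y : ℕ) (S H : Finset ℕ) (N : ℕ) (V : ℕ → ℝ), 3 ≤ y → y ≤ Q →
      (∀ p ∈ S, p.Prime ∧ p ≤ Q) → (∀ p : ℕ, p.Prime → p ≤ y → p ∈ S) →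
      (S.filter (fun p => y < p)).card ≤ y →
      (∀ p : ℕ, p.Prime → p ≤ Q → p ∉ S → Set.InjOn (fun h => h % p) (H : Set ℕ)) →
      0 < N → (∀ d ∈ Icc 1 Q, (∏ p ∈ S, p) * d ∣ N) → IsWeight (∏ p ∈ S, p) N Q V →
      |∑ n ∈ range N, V n ^ 2 * (SV H (PQ Q) n).card -
          DD 1 (PQ Q \ S) * ∑ n ∈ range N, V n ^ 2 * (SV H S n).card| ≤
        ε * (DD 1 (PQ Q \ S) * ∑ n ∈ range N, V n ^ 2 * (SV H S n).card) +
          C * er H.card Q y * ∑ n ∈ range N, V n ^ 2 := by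
  classical
  obtain ⟨C, hC, A⟩ := full ε hε
  refine ⟨C, hC, fun Q y S H N V hy hyQ hS hyS hSc hH hN hdN hV => ?_⟩
  set P := PQ Q \ S with hP
  set E := S.filter (fun p => y < p) with hE
  set W := ∏ p ∈ S, p with hWd
  have hW0 : 0 < W := prod_pos fun p hp => (hS p hp).1.pos
  have hSW : ∀ p ∈ S, p ∣ W := fun p hp => dvd_prod_of_mem _ hp
  have hSP : S ∪ P = PQ Q := by
    rw [hP]
    refine union_sdiff_of_subset fun p hp => ?_
    exact mem_PQ.2 (hS p hp)
  have hPp : ∀ p ∈ P, p.Prime ∧ p ≤ Q ∧ p ∉ S := fun p hp => by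
    rw [hP, mem_sdiff] at hp
    exact ⟨(mem_PQ.1 hp.1).1, (mem_PQ.1 hp.1).2, hp.2⟩
  have hPy : ∀ p ∈ P, y < p := fun p hp => by
    by_contra h1
    exact (hPp p hp).2.2 (hyS p (hPp p hp).1 (by omega))
  have hPE : ∀ p : ℕ, p.Prime → y < p → p ≤ Q → p ∈ P ∨ p ∈ E := by
    intro p hp hyp hpQ
    by_cases h1 : p ∈ S
    · exact Or.inr (mem_filter.2 ⟨h1, hyp⟩)
    · exact Or.inl (mem_sdiff.2 ⟨mem_PQ.2 ⟨hp, hpQ⟩, h1⟩)
  have hEs : ∑ p ∈ E, 1 / (p : ℝ) ≤ 1 := by
    have hy0 : (0 : ℝ) < y := by exact_mod_cast (by omega : 0 < y)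
    have h1 : ∑ p ∈ E, 1 / (p : ℝ) ≤ ∑ _p ∈ E, 1 / (y : ℝ) := by
      refine sum_le_sum fun p hp => one_div_le_one_div_of_le hy0 ?_
      exact_mod_cast (mem_filter.1 hp).2.le
    rw [sum_const, nsmul_eq_mul] at h1
    have h2 : (E.card : ℝ) ≤ y := by exact_mod_cast hSc
    have h3 : (E.card : ℝ) * (1 / y) ≤ y * (1 / y) := mul_le_mul_of_nonneg_right h2 (by positivity)
    have h4 : (y : ℝ) * (1 / y) = 1 := by field_simp
    linarith
  have hok : ∀ H' ⊆ H, Ok H' P W N := by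
    intro H' hH'
    refine ⟨hN, fun p hp => ?_⟩
    obtain ⟨h1, h2, h3⟩ := hPp p hp
    refine ⟨h1, ?_, ?_, ?_⟩
    · exact (Dvd.intro_left _ rfl).trans (hdN p (mem_Icc.2 ⟨h1.one_lt.le, h2⟩))
    · intro h4
      rw [hWd, h1.prime.dvd_finsetProd_iff] at h4
      obtain ⟨q, hq, hpq⟩ := h4
      rw [(Nat.prime_dvd_prime_iff_eq h1 (hS q hq).1).1 hpq] at h3
      exact h3 hq
    · exact (hH p h1 h2 h3).mono (by exact_mod_cast hH')
  -- the functions supported on the classes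
  set D := DD 1 P with hD
  set Va : ℕ → ℕ → ℝ := fun a n => if n % W = a then V n else 0 with hVa
  set Ha : ℕ → Finset ℕ := fun a => SV H S a with hHa
  have hHaH : ∀ a, Ha a ⊆ H := fun a => filter_subset _ _
  have key : ∀ a ∈ range W, |Bin N (Ha a) 1 (Va a) P - (Ha a).card * D * SS N (Va a)| ≤
      (ε * ((Ha a).card * D) + C * er H.card Q y) * SS N (Va a) := by
    intro a _
    refine (A Q y (Ha a) P E W N (Va a) hy hyQ (hok _ (hHaH a)) hPy hPE hEs (hV.cls a)).trans ?_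
    refine mul_le_mul_of_nonneg_right ?_ (SS_nonneg _ _)
    have h1 : er (Ha a).card Q y ≤ er H.card Q y :=
      er_mono (Nat.cast_nonneg _) (by exact_mod_cast card_le_card (hHaH a))
    have h2 := mul_le_mul_of_nonneg_left h1 hC.le
    linarith
  have e1 : ∑ a ∈ range W, Bin N (Ha a) 1 (Va a) P =
      ∑ n ∈ range N, V n ^ 2 * (SV H (PQ Q) n).card := by
    have h1 : ∀ a ∈ range W, Bin N (Ha a) 1 (Va a) P =
        ∑ n ∈ range N, (if n % W = a then V n ^ 2 * ((SV (Ha a) P n).card : ℝ) else 0) := by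
      intro a _
      unfold Bin
      refine sum_congr rfl fun n _ => ?_
      simp only [hVa]
      rw [Nat.choose_one_right]
      split_ifs <;> simp
    rw [sum_congr rfl h1, sum_cls' hW0 (fun a n => V n ^ 2 * ((SV (Ha a) P n).card : ℝ))]
    refine sum_congr rfl fun n _ => ?_
    simp only [hHa]
    rw [SV_mod hSW, SV_SV, hSP]
  have e2 : ∑ a ∈ range W, (Ha a).card * D * SS N (Va a) =
      D * ∑ n ∈ range N, V n ^ 2 * (SV H S n).card := by
    have h1 : ∀ a ∈ range W, (Ha a).card * D * SS N (Va a) =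
        D * ∑ n ∈ range N, (if n % W = a then V n ^ 2 * ((Ha a).card : ℝ) else 0) := by
      intro a _
      unfold SS
      rw [mul_comm ((Ha a).card : ℝ) D, mul_assoc, mul_sum]
      congr 1
      refine sum_congr rfl fun n _ => ?_
      simp only [hVa]
      split_ifs <;> simp [mul_comm]
    rw [sum_congr rfl h1, ← mul_sum, sum_cls' hW0 (fun a n => V n ^ 2 * ((Ha a).card : ℝ))]
    congr 1
    refine sum_congr rfl fun n _ => ?_
    simp only [hHa]
    rw [SV_mod hSW]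
  have e3 : ∑ a ∈ range W, SS N (Va a) = ∑ n ∈ range N, V n ^ 2 := by
    have h1 : ∀ a ∈ range W, SS N (Va a) =
        ∑ n ∈ range N, (if n % W = a then V n ^ 2 else 0) := by
      intro a _
      unfold SS
      refine sum_congr rfl fun n _ => ?_
      simp only [hVa]
      split_ifs <;> simp
    rw [sum_congr rfl h1, sum_cls' hW0 (fun _ n => V n ^ 2)]
  have h1 : |∑ a ∈ range W, (Bin N (Ha a) 1 (Va a) P - (Ha a).card * D * SS N (Va a))| ≤
      ∑ a ∈ range W, (ε * ((Ha a).card * D) + C * er H.card Q y) * SS N (Va a) :=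
    (abs_sum_le_sum_abs _ _).trans (sum_le_sum key)
  rw [sum_sub_distrib, e1, e2] at h1
  refine h1.trans (le_of_eq ?_)
  have h2 : ∀ a ∈ range W, (ε * ((Ha a).card * D) + C * er H.card Q y) * SS N (Va a) =
      ε * ((Ha a).card * D * SS N (Va a)) + C * er H.card Q y * SS N (Va a) := fun a _ => by ring
  rw [sum_congr rfl h2, sum_add_distrib, ← mul_sum, ← mul_sum, e2, e3]

end Pool.Agent.Y830.PR
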