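import Pool.Agent.Y830.PR.Add

/-!
The mean number of the surviving sites if (almost) all primes in a range are used.
-/

set_option autoImplicit false

namespace Pool.Agent.Y830.PR

open Finset
open Pool.Agent.Y835.SB Pool.Agent.Y830.SQ

theorem DDup : ∃ C : ℝ, 0 < C ∧ ∀ (z Q : ℕ) (P E : Finset ℕ), 3 ≤ z → z ≤ Q →
    (∀ p : ℕ, p.Prime → z < p → p ≤ Q → p ∈ P ∨ p ∈ E) → (∀ p ∈ P, 2 < p) →
    ∑ p ∈ E, 1 / (p : ℝ) ≤ 1 → DD 1 P ≤ C * (Real.log z / Real.log Q) := by
  obtain ⟨CM, hCM0, hCM⟩ := Pool.Agent.Helper923.HMertens.mertens_ratio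
  refine ⟨Real.exp (CM + 1), Real.exp_pos _, fun z Q P E hz hzQ hP hP2 hE => ?_⟩
  have hlz := one_le_log hz
  have hlQ := one_le_log (hz.trans hzQ)
  have h1 := (abs_le.1 (hCM z Q (by omega) hzQ)).1
  have h2 : CM / Real.log z ≤ CM := div_le_self hCM0 hlz
  have h3 : DD 1 P ≤ Real.exp (-∑ p ∈ P, 1 / (p : ℝ)) := by
    unfold DD
    rw [← sum_neg_distrib, Real.exp_sum]
    refine prod_le_prod (fun p hp => ?_) fun p hp => ?_
    · have h4 : (2 : ℝ) < p := by exact_mod_cast hP2 p hp
      rw [Nat.cast_one, sub_nonneg, div_le_one (by linarith)]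
      linarith
    · have h4 := Real.add_one_le_exp (-(1 / (p : ℝ)))
      rw [Nat.cast_one]
      linarith
  have h4 : ∑ p ∈ (Ioc z Q).filter Nat.Prime, 1 / (p : ℝ) ≤ ∑ p ∈ P, 1 / (p : ℝ) + 1 := by
    have h5 : (Ioc z Q).filter Nat.Prime ⊆ P ∪ E := by
      intro p hp
      rw [mem_filter, mem_Ioc] at hp
      rw [mem_union]
      exact hP p hp.2 hp.1.1 hp.1.2
    have h6 : ∑ p ∈ P ∪ E, 1 / (p : ℝ) ≤ ∑ p ∈ P, 1 / (p : ℝ) + ∑ p ∈ E, 1 / (p : ℝ) := by
      have h7 := sum_union_inter (s₁ := P) (s₂ := E) (f := fun p : ℕ => 1 / (p : ℝ))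
      have h8 : 0 ≤ ∑ p ∈ P ∩ E, 1 / (p : ℝ) := sum_nonneg fun _ _ => by positivity
      linarith
    have h7 := sum_le_sum_of_subset_of_nonneg h5 fun (p : ℕ) _ _ =>
      (by positivity : (0 : ℝ) ≤ 1 / (p : ℝ))
    linarith
  refine h3.trans ?_
  have h5 : Real.exp (CM + 1) * (Real.log z / Real.log Q) =
      Real.exp (CM + 1 + Real.log (Real.log z / Real.log Q)) := by
    rw [Real.exp_add (CM + 1), Real.exp_log (by positivity)]
  rw [h5]
  refine Real.exp_le_exp.2 ?_
  have h6 : Real.log (Real.log z / Real.log Q) = -Real.log (Real.log Q / Real.log z) := by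
    rw [← Real.log_inv, inv_div]
  rw [h6]
  linarith

theorem Bin_mono (N : ℕ) (H : Finset ℕ) (V : ℕ → ℝ) {P' P : Finset ℕ} (h : P' ⊆ P) :
    Bin N H 1 V P ≤ Bin N H 1 V P' := by
  unfold Bin
  refine sum_le_sum fun n _ => mul_le_mul_of_nonneg_left ?_ (sq_nonneg _)
  rw [Nat.choose_one_right, Nat.choose_one_right]
  have h1 : SV H P n ⊆ SV H P' n := by
    intro x hx
    unfold SV at hx ⊢
    rw [mem_filter] at hx ⊢
    exact ⟨hx.1, fun q hq => hx.2 q (h hq)⟩
  exact_mod_cast card_le_card h1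

/-- the error term -/
noncomputable def er (k : ℝ) (Q y : ℕ) : ℝ := Real.log (2 + min k (Real.log Q / Real.log y))

theorem er_pos {k : ℝ} {Q y : ℕ} (hk : 0 ≤ k) : Real.log 2 ≤ er k Q y := by
  unfold er
  refine Real.log_le_log (by norm_num) ?_
  have h1 : 0 ≤ min k (Real.log Q / Real.log y) :=
    le_min hk (div_nonneg (Real.log_natCast_nonneg _) (Real.log_natCast_nonneg _))
  linarith

theorem er_mono {k k' : ℝ} {Q y : ℕ} (hk : 0 ≤ k) (h : k ≤ k') : er k Q y ≤ er k' Q y := by
  unfold er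
  have h1 : 0 ≤ min k (Real.log Q / Real.log y) :=
    le_min hk (div_nonneg (Real.log_natCast_nonneg _) (Real.log_natCast_nonneg _))
  refine Real.log_le_log (by linarith) ?_
  have := min_le_min_right (Real.log Q / Real.log y) h
  linarith

theorem one_add_log {x : ℝ} (hx : 1 ≤ x) : 1 + Real.log x ≤ 3 * Real.log (2 + x) := by
  have h1 : Real.log x ≤ Real.log (2 + x) := Real.log_le_log (by linarith) (by linarith)
  have h2 : Real.log 2 ≤ Real.log (2 + x) := Real.log_le_log (by linarith) (by linarith)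
  have h3 := Real.log_two_gt_d9
  linarith

/-- the mean number of the surviving sites, full range of primes -/
theorem full (ε : ℝ) (hε : 0 < ε) : ∃ C : ℝ, 0 < C ∧
    ∀ (Q y : ℕ) (H P E : Finset ℕ) (W N : ℕ) (V : ℕ → ℝ), 3 ≤ y → y ≤ Q → Ok H P W N →
      (∀ p ∈ P, y < p) → (∀ p : ℕ, p.Prime → y < p → p ≤ Q → p ∈ P ∨ p ∈ E) →
      ∑ p ∈ E, 1 / (p : ℝ) ≤ 1 → IsWeight W N Q V →
      |Bin N H 1 V P - H.card * DD 1 P * SS N V| ≤
        (ε * (H.card * DD 1 P) + C * er H.card Q y) * SS N V := by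
  obtain ⟨C1, hC1, A1⟩ := add1 ε hε
  obtain ⟨C2, hC2, A2⟩ := add1 1 one_pos
  obtain ⟨C3, hC3, A3⟩ := DDup
  refine ⟨3 * C3 * C1 + (C3 * (4 + 6 * C2) + C3) * 4, by positivity,
    fun Q y H P E W N V hy hyQ hok hpy hPE hE hV => ?_⟩
  have hly := one_le_log hy
  have hlQ := one_le_log (hy.trans hyQ)
  have hlyQ : Real.log y ≤ Real.log Q := Real.log_le_log (by exact_mod_cast (by omega : 0 < y))
    (by exact_mod_cast hyQ)
  set L : ℝ := Real.log Q / Real.log y with hL
  have hL1 : 1 ≤ L := by rw [hL, le_div_iff₀ (by linarith)]; linarith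
  have hLeq : Real.log Q = L * Real.log y := by rw [hL]; field_simp
  have hQ1 : (1 : ℝ) ≤ Q := by exact_mod_cast (by omega : 1 ≤ Q)
  have hSS0 : 0 ≤ SS N V := SS_nonneg N V
  set k : ℕ := H.card with hk
  have hk0 : (0 : ℝ) ≤ k := Nat.cast_nonneg _
  have hP2 : ∀ p ∈ P, 2 * 1 < p := fun p hp => by have := hpy p hp; omega
  have hDD0 : 0 < DD 1 P := DD_pos hP2
  have her0 : 0 < er k Q y := lt_of_lt_of_le (Real.log_pos (by norm_num)) (er_pos hk0)
  rcases le_or_gt (k : ℝ) L with hkL | hkL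
  · -- few sites
    rcases Nat.eq_zero_or_pos k with hk1 | hk1
    · have hH : H = ∅ := card_eq_zero.1 (by rw [← hk]; exact hk1)
      have h1 : Bin N H 1 V P = 0 := by
        rw [hH]
        unfold Bin SV
        refine sum_eq_zero fun n _ => ?_
        simp
      rw [h1, hk1]
      simp only [Nat.cast_zero, zero_mul, sub_zero, abs_zero, mul_zero, zero_add]
      refine mul_nonneg (mul_nonneg (by positivity) ?_) hSS0
      have := er_pos (k := 0) (Q := Q) (y := y) le_rfl
      have := Real.log_pos (by norm_num : (1 : ℝ) < 2)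
      linarith
    have hk1r : (1 : ℝ) ≤ k := by exact_mod_cast hk1
    have hk0r : (0 : ℝ) < k := by linarith
    set z : ℕ := ⌈(Q : ℝ) ^ (1 / (k : ℝ))⌉₊ with hz
    have hQk : Real.log ((Q : ℝ) ^ (1 / (k : ℝ))) = Real.log Q / k := by
      rw [Real.log_rpow (by linarith)]
      ring
    have hQk0 : 0 < (Q : ℝ) ^ (1 / (k : ℝ)) := Real.rpow_pos_of_pos (by linarith) _
    have hQk1 : 1 ≤ (Q : ℝ) ^ (1 / (k : ℝ)) := Real.one_le_rpow hQ1 (one_div_nonneg.2 hk0)
    have hyz : y ≤ z := by
      have h1 : (y : ℝ) ≤ (Q : ℝ) ^ (1 / (k : ℝ)) := by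
        rw [← Real.log_le_log_iff (by exact_mod_cast (by omega : 0 < y)) hQk0, hQk,
          le_div_iff₀ hk0r, hLeq]
        nlinarith
      have h2 := Nat.le_ceil ((Q : ℝ) ^ (1 / (k : ℝ)))
      exact_mod_cast h1.trans h2
    have hzQ : z ≤ Q := by
      rw [hz, Nat.ceil_le]
      calc (Q : ℝ) ^ (1 / (k : ℝ)) ≤ (Q : ℝ) ^ (1 : ℝ) :=
            Real.rpow_le_rpow_of_exponent_le hQ1 (by rw [div_le_one hk0r]; exact hk1r)
        _ = Q := Real.rpow_one _
    have hz3 : 3 ≤ z := hy.trans hyz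
    have hlz := one_le_log hz3
    have hz0 : (0 : ℝ) < z := by exact_mod_cast (by omega : 0 < z)
    have hlz1 : Real.log Q / k ≤ Real.log z := by
      rw [← hQk]
      exact Real.log_le_log hQk0 (Nat.le_ceil _)
    have hlz2 : Real.log z ≤ Real.log 2 + Real.log Q / k := by
      rw [← hQk, ← Real.log_mul (by norm_num) hQk0.ne']
      refine Real.log_le_log hz0 ?_
      have h1 := (Nat.ceil_lt_add_one hQk0.le).le
      rw [hz]
      linarith
    have hlz3 : k * Real.log z ≤ 2 * Real.log Q := by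
      have h1 := mul_le_mul_of_nonneg_left hlz2 hk0
      have h2 : (k : ℝ) * (Real.log 2 + Real.log Q / k) = k * Real.log 2 + Real.log Q := by
        field_simp
      have h3 : Real.log 2 ≤ 1 := by
        have := Real.log_two_lt_d9
        linarith
      have h4 : (k : ℝ) * Real.log 2 ≤ Real.log Q := by
        rw [hLeq]
        nlinarith
      linarith
    set P' := P.filter (fun p => z < p) with hP'
    have hP'P : P' ⊆ P := filter_subset _ _
    have h1 := A2 Q z k H P' W N V hQ1 hz3 hk1r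
      (by rw [div_le_iff₀ hk0r] at hlz1; linarith) (hok.sub hP'P)
      (fun p hp => (mem_filter.1 hp).2.le) hV
    have h2 := A3 z Q P' E hz3 hzQ (fun p hp hzp hpQ => by
      rcases hPE p hp (by omega) hpQ with h | h
      · exact Or.inl (mem_filter.2 ⟨h, hzp⟩)
      · exact Or.inr h) (fun p hp => by have := hP2 p (hP'P hp); omega) hE
    have h3 := A3 y Q P E hy hyQ hPE (fun p hp => by have := hP2 p hp; omega) hE
    have hkD : (k : ℝ) * DD 1 P' ≤ 2 * C3 := by
      calc (k : ℝ) * DD 1 P' ≤ k * (C3 * (Real.log z / Real.log Q)) :=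
            mul_le_mul_of_nonneg_left h2 hk0
        _ = C3 * (k * Real.log z) / Real.log Q := by ring
        _ ≤ C3 * (2 * Real.log Q) / Real.log Q := by
            refine div_le_div_of_nonneg_right ?_ (by linarith)
            exact mul_le_mul_of_nonneg_left hlz3 hC3.le
        _ = 2 * C3 := by field_simp
    have hkD2 : (k : ℝ) * DD 1 P ≤ C3 := by
      calc (k : ℝ) * DD 1 P ≤ L * (C3 * (Real.log y / Real.log Q)) :=
            mul_le_mul hkL h3 hDD0.le (by linarith)
        _ = C3 := by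
            have hly0 : Real.log y ≠ 0 := by linarith
            have hL0 : L ≠ 0 := by linarith
            rw [hLeq]
            rw [div_mul_cancel_right₀ hly0]
            field_simp
    have hlk := one_add_log hk1r
    have hlk0 : 0 ≤ Real.log k := Real.log_nonneg hk1r
    have herk : er k Q y = Real.log (2 + k) := by
      unfold er
      rw [min_eq_left hkL]
    have h5 : Bin N H 1 V P' ≤ 2 * C3 * (2 + 3 * C2 * er k Q y) * SS N V := by
      have h6 := (abs_le.1 h1).2
      have h7 : Bin N H 1 V P' ≤ k * DD 1 P' * ((2 + C2 * (1 + Real.log k)) * SS N V) := by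
        have e : k * DD 1 P' * ((2 + C2 * (1 + Real.log k)) * SS N V) =
          k * DD 1 P' * SS N V +
            DD 1 P' * ((1 * k + C2 * (k * (1 + Real.log k))) * SS N V) := by ring
        linarith
      refine h7.trans ?_
      have h8 : k * DD 1 P' * ((2 + C2 * (1 + Real.log k)) * SS N V) ≤
          (2 * C3) * ((2 + C2 * (1 + Real.log k)) * SS N V) :=
        mul_le_mul_of_nonneg_right hkD (by positivity)
      refine h8.trans ?_
      rw [herk]
      have h9 : 2 + C2 * (1 + Real.log k) ≤ 2 + 3 * C2 * Real.log (2 + k) := by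
        have := mul_le_mul_of_nonneg_left hlk hC2.le
        linarith
      have h10 := mul_le_mul_of_nonneg_right h9 hSS0
      have h11 := mul_le_mul_of_nonneg_left h10 (by positivity : 0 ≤ 2 * C3)
      linarith
    have h6 := (Bin_mono N H V hP'P).trans h5
    have h7 := Bin_nonneg N H 1 V P
    have h8 := mul_le_mul_of_nonneg_right hkD2 hSS0
    have h9 : 0 ≤ (k : ℝ) * DD 1 P * SS N V := mul_nonneg (mul_nonneg hk0 hDD0.le) hSS0
    have hl2 : Real.log 2 ≤ er k Q y := er_pos hk0
    have hl2' := Real.log_two_gt_d9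
    have h10 : 1 ≤ 2 * er k Q y := by linarith
    have h11 : 2 * C3 * (2 + 3 * C2 * er k Q y) + C3 ≤
        (3 * C3 * C1 + (C3 * (4 + 6 * C2) + C3) * 4) * er k Q y := by
      have h12 : 0 ≤ C3 * C1 * er k Q y := by positivity
      have h13 : 0 ≤ C3 * C2 * er k Q y := by positivity
      have h14 : C3 ≤ 2 * (C3 * er k Q y) := by nlinarith
      nlinarith
    have h12 := mul_le_mul_of_nonneg_right h11 hSS0
    have h13 : 0 ≤ ε * (k * DD 1 P) * SS N V :=
      mul_nonneg (mul_nonneg hε.le (mul_nonneg hk0 hDD0.le)) hSS0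
    rw [abs_le]
    constructor
    · nlinarith
    · nlinarith
  · -- many sites
    have h1 := A1 Q y L H P W N V hQ1 hy hL1 hLeq.le hok (fun p hp => (hpy p hp).le) hV
    refine h1.trans ?_
    have h3 := A3 y Q P E hy hyQ hPE (fun p hp => by have := hP2 p hp; omega) hE
    have hDL : DD 1 P * L ≤ C3 := by
      calc DD 1 P * L ≤ C3 * (Real.log y / Real.log Q) * L :=
            mul_le_mul_of_nonneg_right h3 (by linarith)
        _ = C3 := by
            have hly0 : Real.log y ≠ 0 := by linarith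
            have hL0 : L ≠ 0 := by linarith
            rw [hLeq, div_mul_cancel_right₀ hly0]
            field_simp
    have herL : er k Q y = Real.log (2 + L) := by
      unfold er
      rw [min_eq_right hkL.le]
    have hlL := one_add_log hL1
    have hlL0 : 0 ≤ Real.log L := Real.log_nonneg hL1
    have h4 : DD 1 P * (C1 * (L * (1 + Real.log L))) ≤ 3 * C3 * C1 * er k Q y := by
      calc DD 1 P * (C1 * (L * (1 + Real.log L))) = C1 * ((DD 1 P * L) * (1 + Real.log L)) := by
            ring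
        _ ≤ C1 * (C3 * (3 * Real.log (2 + L))) := by
            refine mul_le_mul_of_nonneg_left ?_ hC1.le
            exact mul_le_mul hDL hlL (by positivity) hC3.le
        _ = 3 * C3 * C1 * er k Q y := by rw [herL]; ring
    have h5 : 0 ≤ (C3 * (4 + 6 * C2) + C3) * 4 * er k Q y := by positivity
    have h6 : DD 1 P * (ε * k + C1 * (L * (1 + Real.log L))) ≤
        ε * (k * DD 1 P) + (3 * C3 * C1 + (C3 * (4 + 6 * C2) + C3) * 4) * er k Q y := by
      nlinarith
    have h7 := mul_le_mul_of_nonneg_right h6 hSS0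
    linarith

end Pool.Agent.Y830.PR
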