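import Pool.Agent.Y830.PR.Brun

/-!
The weighted number of integers free of small primes: intervals and periods.
-/

set_option autoImplicit false

namespace Pool.Agent.Y830.PR

open Finset Filter Topology
open Pool.Agent.Y829 Pool.Agent.Y829.RP Pool.Agent.Y830.SQ

open Classical in
/-- the density of the `n` in the class `a` modulo `q` with `n + h` free of `S` -/
noncomputable def gS (S : Finset ℕ) (q a h : ℕ) : ℝ :=
  if (∀ p ∈ S, p ∣ q → ¬ p ∣ a + h) then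
    1 / (q : ℝ) * ∏ p ∈ S.filter (fun p => ¬ p ∣ q), (1 - 1 / (p : ℝ)) else 0

theorem cntS (u L q a h : ℕ) (hq : 0 < q) (ha : a < q) (S : Finset ℕ) (hS : ∀ p ∈ S, p.Prime)
    (t : ℕ) (τ : ℝ) (hτ : (∑ p ∈ S, 1 / (p : ℝ)) ^ t / (t.factorial : ℕ) ≤ τ) :
    |(((Ico u (u + L)).filter (fun n => n % q = a ∧ ∀ p ∈ S, ¬ p ∣ n + h)).card : ℝ) -
      L * gS S q a h| ≤ 2 * (L / q) * τ + (t + 1) * (1 + (S.card : ℝ)) ^ t := by
  classical
  have hf : (0 : ℝ) < (t.factorial : ℕ) := by exact_mod_cast t.factorial_pos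
  have hτ0 : 0 ≤ τ := le_trans (div_nonneg (pow_nonneg (sum_nonneg fun _ _ => by positivity) _)
    hf.le) hτ
  unfold gS
  by_cases h1 : ∀ p ∈ S, p ∣ q → ¬ p ∣ a + h
  · rw [if_pos h1]
    set P := S.filter (fun p => ¬ p ∣ q) with hP
    have h2 : (Ico u (u + L)).filter (fun n => n % q = a ∧ ∀ p ∈ S, ¬ p ∣ n + h) =
        (Ico u (u + L)).filter (fun n => n % q = a ∧ ∀ p ∈ P, ¬ p ∣ n + h) := by
      refine filter_congr fun n _ => and_congr_right fun hn => ?_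
      constructor
      · intro h3 p hp
        exact h3 p (mem_filter.1 hp).1
      · intro h3 p hp
        by_cases h4 : p ∣ q
        · have h5 := h1 p hp h4
          intro h6
          apply h5
          have h7 : n + h = a + h + q * (n / q) := by
            have := Nat.mod_add_div n q
            rw [hn] at this
            omega
          rw [h7] at h6
          exact (Nat.dvd_add_iff_left (dvd_mul_of_dvd_left h4 _)).2 h6
        · exact h3 p (mem_filter.2 ⟨hp, h4⟩)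
    rw [h2]
    have h3 := brun u L q a h hq ha P (fun p hp => ⟨hS p (mem_filter.1 hp).1, (mem_filter.1 hp).2⟩) t
    have h4 : (∑ p ∈ P, 1 / (p : ℝ)) ^ t / (t.factorial : ℕ) ≤ τ := by
      refine le_trans ?_ hτ
      refine div_le_div_of_nonneg_right ?_ hf.le
      refine pow_le_pow_left₀ (sum_nonneg fun _ _ => by positivity) ?_ t
      exact sum_le_sum_of_subset_of_nonneg (filter_subset _ _) fun _ _ _ => by positivity
    have h5 : (1 + (P.card : ℝ)) ^ t ≤ (1 + (S.card : ℝ)) ^ t := by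
      refine pow_le_pow_left₀ (by positivity) ?_ t
      have : (P.card : ℝ) ≤ S.card := by exact_mod_cast card_le_card (filter_subset _ _)
      linarith
    have h6 : (L : ℝ) * (1 / (q : ℝ) * ∏ p ∈ P, (1 - 1 / (p : ℝ))) =
        L / q * ∏ p ∈ P, (1 - 1 / (p : ℝ)) := by ring
    rw [h6]
    refine h3.trans ?_
    have h7 : 0 ≤ 2 * ((L : ℝ) / q) := by positivity
    have h8 := mul_le_mul_of_nonneg_left h4 h7
    have h9 : (0 : ℝ) ≤ (t : ℝ) + 1 := by positivity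
    have h10 := mul_le_mul_of_nonneg_left h5 h9
    linarith
  · rw [if_neg h1]
    push Not at h1
    obtain ⟨p, hp, hpq, hpa⟩ := h1
    have h2 : (Ico u (u + L)).filter (fun n => n % q = a ∧ ∀ p ∈ S, ¬ p ∣ n + h) = ∅ := by
      rw [filter_eq_empty_iff]
      rintro n _ ⟨hn, h3⟩
      apply h3 p hp
      have h7 : n + h = a + h + q * (n / q) := by
        have := Nat.mod_add_div n q
        rw [hn] at this
        omega
      rw [h7]
      exact (Nat.dvd_add_iff_left (dvd_mul_of_dvd_left hpq _)).1 hpa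
    rw [h2, card_empty, Nat.cast_zero, mul_zero, sub_zero, abs_zero]
    positivity

theorem sumS (Q : ℕ) (c : ℕ → ℕ → ℝ) (u L h : ℕ) (S : Finset ℕ) (hS : ∀ p ∈ S, p.Prime)
    (t : ℕ) (τ : ℝ) (hτ : (∑ p ∈ S, 1 / (p : ℝ)) ^ t / (t.factorial : ℕ) ≤ τ) :
    |∑ n ∈ Ico u (u + L), wt Q c n * (if ∀ p ∈ S, ¬ p ∣ n + h then 1 else 0) -
      L * ∑ d ∈ Icc 1 Q, ∑ a ∈ range d, c d a * gS S d a h| ≤
      ∑ d ∈ Icc 1 Q, ss c d * (2 * (L / d) * τ + (t + 1) * (1 + (S.card : ℝ)) ^ t) := by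
  classical
  have h1 : ∑ n ∈ Ico u (u + L), wt Q c n * (if ∀ p ∈ S, ¬ p ∣ n + h then (1 : ℝ) else 0) =
      ∑ d ∈ Icc 1 Q, ∑ a ∈ range d, c d a *
        (((Ico u (u + L)).filter (fun n => n % d = a ∧ ∀ p ∈ S, ¬ p ∣ n + h)).card : ℝ) := by
    have h2 : ∀ n ∈ Ico u (u + L), wt Q c n * (if ∀ p ∈ S, ¬ p ∣ n + h then (1 : ℝ) else 0) =
        ∑ d ∈ Icc 1 Q, ∑ a ∈ range d, c d a *
          (if n % d = a ∧ ∀ p ∈ S, ¬ p ∣ n + h then 1 else 0) := by
      intro n _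
      rw [wt_eq, sum_mul]
      refine sum_congr rfl fun d _ => ?_
      rw [sum_mul]
      refine sum_congr rfl fun a _ => ?_
      by_cases h2 : n % d = a <;> by_cases h3 : (∀ p ∈ S, ¬ p ∣ n + h) <;>
        simp only [h2, h3] <;> simp
    rw [sum_congr rfl h2, sum_comm]
    refine sum_congr rfl fun d _ => ?_
    rw [sum_comm]
    refine sum_congr rfl fun a _ => ?_
    rw [← mul_sum, sum_boole]
  rw [h1, mul_sum, ← sum_sub_distrib]
  refine (abs_sum_le_sum_abs _ _).trans (sum_le_sum fun d hd => ?_)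
  have hd1 := (mem_Icc.1 hd).1
  rw [mul_sum, ← sum_sub_distrib]
  unfold ss
  rw [sum_mul]
  refine (abs_sum_le_sum_abs _ _).trans (sum_le_sum fun a ha => ?_)
  have e : c d a * (((Ico u (u + L)).filter (fun n => n % d = a ∧ ∀ p ∈ S, ¬ p ∣ n + h)).card : ℝ) -
      L * (c d a * gS S d a h) = c d a *
      ((((Ico u (u + L)).filter (fun n => n % d = a ∧ ∀ p ∈ S, ¬ p ∣ n + h)).card : ℝ) -
        L * gS S d a h) := by ring
  rw [e, abs_mul]
  exact mul_le_mul_of_nonneg_left (cntS u L d a h (by omega) (mem_range.1 ha) S hS t τ hτ)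
    (abs_nonneg _)

theorem sum_ss {Q K : ℕ} {L : ℝ} {c : ℕ → ℕ → ℝ} (hL : 1 ≤ L)
    (hc : ∑ d ∈ Icc 1 Q, ss c d ^ 2 / d ≤ L ^ K) : ∑ d ∈ Icc 1 Q, ss c d ≤ Q * L ^ K := by
  have h1 : ∀ d ∈ Icc 1 Q, ss c d ≤ (1 / 2) * (Q * (ss c d ^ 2 / d)) + (1 / 2) := by
    intro d hd
    rw [mem_Icc] at hd
    have hd0 : (0 : ℝ) < d := by exact_mod_cast (by omega : 0 < d)
    have hdQ : (d : ℝ) ≤ Q := by exact_mod_cast hd.2
    have h2 : ss c d ^ 2 ≤ Q * (ss c d ^ 2 / d) := by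
      rw [mul_div_assoc', le_div_iff₀ hd0, mul_comm]
      exact mul_le_mul_of_nonneg_right hdQ (sq_nonneg _)
    nlinarith [sq_nonneg (ss c d - 1)]
  refine (sum_le_sum h1).trans ?_
  rw [sum_add_distrib, ← mul_sum, ← mul_sum, sum_const, Nat.card_Icc, Nat.add_sub_cancel,
    nsmul_eq_mul]
  have hQ0 : (0 : ℝ) ≤ Q := Nat.cast_nonneg _
  have h3 := mul_le_mul_of_nonneg_left hc hQ0
  have h4 : (Q : ℝ) ≤ Q * L ^ K := by
    have : (1 : ℝ) ≤ L ^ K := one_le_pow₀ hL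
    nlinarith
  linarith

theorem sum_ssd {Q K : ℕ} {L : ℝ} {c : ℕ → ℕ → ℝ} (hL : 2 ≤ L) (hQL : Real.log Q ≤ L)
    (hc : ∑ d ∈ Icc 1 Q, ss c d ^ 2 / d ≤ L ^ K) : ∑ d ∈ Icc 1 Q, ss c d / d ≤ L ^ (K + 1) := by
  have h1 : ∀ d ∈ Icc 1 Q, ss c d / d ≤ (1 / 2) * (ss c d ^ 2 / d) + (1 / 2) * (1 / (d : ℝ)) := by
    intro d hd
    rw [mem_Icc] at hd
    have hd0 : (0 : ℝ) < d := by exact_mod_cast (by omega : 0 < d)
    have e : (1 / 2) * (ss c d ^ 2 / d) + (1 / 2) * (1 / (d : ℝ)) - ss c d / d =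
        (1 / 2) * ((ss c d - 1) ^ 2 / d) := by
      field_simp
      ring
    have h2 : 0 ≤ (1 / 2) * ((ss c d - 1) ^ 2 / (d : ℝ)) := by positivity
    linarith
  have h2 : ∑ d ∈ Icc 1 Q, 1 / (d : ℝ) ≤ 1 + L := by
    have h3 := harmonic_le_one_add_log Q
    rw [harmonic_eq_sum_Icc] at h3
    push_cast at h3
    have h4 : ∑ d ∈ Icc 1 Q, 1 / (d : ℝ) = ∑ d ∈ Icc 1 Q, (d : ℝ)⁻¹ :=
      sum_congr rfl fun _ _ => one_div _
    rw [h4]
    linarith
  refine (sum_le_sum h1).trans ?_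
  rw [sum_add_distrib, ← mul_sum, ← mul_sum]
  have h3 : (1 : ℝ) ≤ L ^ K := one_le_pow₀ (by linarith)
  have h4 : L ^ (K + 1) = L ^ K * L := pow_succ _ _
  rw [h4]
  nlinarith

end Pool.Agent.Y830.PR
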